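import Pool.Agent.R838.CR.PLs

set_option autoImplicit false

/-!
# The zeros of the heat flow: simple, on the line, with regular gaps, all times
-/

namespace Pool.Agent.R838.CR

open Complex Filter Topology Set
open scoped ComplexConjugate
open Pool.Agent.W169.HF (heat)
open Pool.Agent.Y671.GL
open Pool.Agent.Y693.GL (GY)
open Pool.Agent.R838.TW (PL PL.app PL.huge)

/-- The next zero of `Y` above `s` is simple and lies vertically above `s`, at the distance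
`(π + O(ε)) / (κ log (Im s))`. -/
def Fol (Y : ℂ → ℂ) (κ ε : ℝ) (s : ℂ) : Prop :=
  ∃ g : ℝ, 0 < g ∧ |g * (κ * Real.log s.im) - Real.pi| ≤ ε ∧
    Y (s + g * I) = 0 ∧ deriv Y (s + g * I) ≠ 0 ∧
    ∀ z : ℂ, Y z = 0 → s.im ≤ z.im → z.im ≤ s.im + g → z = s ∨ z = s + g * I

/-- The zeros of `heat t Λ` with imaginary part in `(T, 2T]` which are off the line `Re s = a`, or multiple, or, if
`t log T ≤ A`, not followed by a zero at a regular distance. -/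
def EXC (Λ : ℂ → ℂ) (κ ε A a t T : ℝ) : Set ℂ :=
  {s | s ∈ ZH Λ t T ∧ (s.re ≠ a ∨ deriv (heat t Λ) s = 0 ∨
    (t * Real.log T ≤ A ∧ ¬ Fol (heat t Λ) κ ε s))}

variable {Λ : ℂ → ℂ} {u : ℂ} {a : ℝ}

lemma EXC_sub1 {κ ε A t T : ℝ} : EXC Λ κ ε A a t T ⊆ IRX Λ κ ε a t T := by
  rintro s ⟨h1, h2⟩
  refine ⟨h1, ?_⟩
  rintro ⟨h3, h4, h5⟩
  rcases h2 with h2 | h2 | h2
  · exact h2 h3
  · exact h4 h2
  · exact h2.2 h5

lemma EXC_sub2 {κ ε A t T : ℝ} (h : A < t * Real.log T) : EXC Λ κ ε A a t T ⊆ EH Λ a t T := by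
  rintro s ⟨h1, h2⟩
  refine ⟨h1, ?_⟩
  rcases h2 with h2 | h2 | h2
  · exact Or.inl h2
  · exact Or.inr h2
  · exact absurd h2.1 (not_le.2 h)

/-- **Main theorem**, for one completed L-function. -/
theorem countA_shift {κ : ℝ} {H Z : ℂ → ℂ} (hκ : 1 / 2 ≤ κ) (hu : u ≠ 0)
    (hG : GY κ H (fun z => u * Λ ((a : ℂ) + z)) Z) (hA : AppX (fun z => u * Λ ((a : ℂ) + z)))
    (hst : ∀ s : ℂ, (fun z => u * Λ ((a : ℂ) + z)) s = 0 → |s.re| ≤ 1 / 2)
    (hH : HugeX (fun z => u * Λ ((a : ℂ) + z))) :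
    (∀ t T : ℝ, 0 ≤ t → (ZH Λ t T).Finite) ∧ ∀ ε A : ℝ, 0 < ε → ∃ c C : ℝ, 0 < c ∧ 0 < C ∧
      ∀ t T : ℝ, 0 < t → t ≤ 1 / 8 → 2 ≤ T →
      (nu (heat t Λ) (EXC Λ κ ε A a t T) : ℝ) ≤
        C * Real.exp (-(c * t * Real.log T ^ 2)) * nu (heat t Λ) (ZH Λ t T) ∧
      (nu (heat t Λ) (EXC Λ κ ε A a t T) : ℝ) ≤ C * Real.exp (-(c * t * Real.log T ^ 2)) * T * Real.log T := by
  obtain ⟨hfin, c1, C1, hc1, hC1, h1⟩ := Pool.Agent.R838.LD.countHY_shift hκ hu hG hA hst hH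
  refine ⟨hfin, ?_⟩
  intro ε A hε
  obtain ⟨c2, C2, hc2, hC2, h2⟩ := countP_shift hκ hu hG hA hst hH (A := A) hε
  refine ⟨min c1 c2, C1 + C2, lt_min hc1 hc2, by positivity, ?_⟩
  intro t T ht ht8 hT
  have hsubI : IRX Λ κ ε a t T ⊆ ZH Λ t T := fun s h => h.1
  have hsubE : EH Λ a t T ⊆ ZH Λ t T := fun s h => h.1
  have hfI := (hfin t T ht.le).subset hsubI
  have hfE := (hfin t T ht.le).subset hsubE
  have hZ0 : (0 : ℝ) ≤ nu (heat t Λ) (ZH Λ t T) := Nat.cast_nonneg _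
  have hT0 : 0 < T := by linarith
  have hl0 : 0 < Real.log T := Real.log_pos (by linarith)
  have hx : 0 ≤ t * Real.log T ^ 2 := by positivity
  have hE1 : Real.exp (-(c1 * t * Real.log T ^ 2)) ≤ Real.exp (-(min c1 c2 * t * Real.log T ^ 2)) := by
    rw [Real.exp_le_exp]
    have := mul_le_mul_of_nonneg_right (min_le_left c1 c2) hx
    linarith
  have hE2 : Real.exp (-(c2 * t * Real.log T ^ 2)) ≤ Real.exp (-(min c1 c2 * t * Real.log T ^ 2)) := by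
    rw [Real.exp_le_exp]
    have := mul_le_mul_of_nonneg_right (min_le_right c1 c2) hx
    linarith
  have hE := Real.exp_pos (-(min c1 c2 * t * Real.log T ^ 2))
  have hA1 : ∀ Y : ℝ, 0 ≤ Y → C1 * Real.exp (-(c1 * t * Real.log T ^ 2)) * Y ≤
      (C1 + C2) * Real.exp (-(min c1 c2 * t * Real.log T ^ 2)) * Y := by
    intro Y hY
    apply mul_le_mul_of_nonneg_right _ hY
    calc C1 * Real.exp (-(c1 * t * Real.log T ^ 2)) ≤ C1 * Real.exp (-(min c1 c2 * t * Real.log T ^ 2)) :=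
          mul_le_mul_of_nonneg_left hE1 hC1.le
      _ ≤ _ := mul_le_mul_of_nonneg_right (by linarith) hE.le
  have hA2 : ∀ Y : ℝ, 0 ≤ Y → C2 * Real.exp (-(c2 * t * Real.log T ^ 2)) * Y ≤
      (C1 + C2) * Real.exp (-(min c1 c2 * t * Real.log T ^ 2)) * Y := by
    intro Y hY
    apply mul_le_mul_of_nonneg_right _ hY
    calc C2 * Real.exp (-(c2 * t * Real.log T ^ 2)) ≤ C2 * Real.exp (-(min c1 c2 * t * Real.log T ^ 2)) :=
          mul_le_mul_of_nonneg_left hE2 hC2.le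
      _ ≤ _ := mul_le_mul_of_nonneg_right (by linarith) hE.le
  have hY : 0 ≤ T * Real.log T := by positivity
  rcases le_or_gt (t * Real.log T) A with h | h
  · obtain ⟨k1, k2⟩ := h2 t T ht ht8 hT h
    have k3 := nu_mono (g := heat t Λ) hfI (EXC_sub1 (Λ := Λ) (κ := κ) (ε := ε) (A := A) (a := a) (t := t) (T := T))
    refine ⟨(k3.trans k1).trans (hA2 _ hZ0), (k3.trans k2).trans ?_⟩
    have := hA2 _ hY
    rw [← mul_assoc, ← mul_assoc] at this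
    exact this
  · obtain ⟨k1, k2⟩ := h1 t T ht ht8 hT
    have k3 := nu_mono (g := heat t Λ) hfE (EXC_sub2 (Λ := Λ) (κ := κ) (ε := ε) (a := a) h)
    refine ⟨(k3.trans k1).trans (hA1 _ hZ0), (k3.trans k2).trans ?_⟩
    have := hA1 _ hY
    rw [← mul_assoc, ← mul_assoc] at this
    exact this

/-- **Main theorem**, for products of completed L-functions. -/
theorem PL_spacing {κ : ℝ} (hκ : 1 / 2 ≤ κ) (h : PL κ (fun z => u * Λ ((a : ℂ) + z))) (hu : u ≠ 0) :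
    (∀ t T : ℝ, 0 ≤ t → (ZH Λ t T).Finite) ∧ ∀ ε A : ℝ, 0 < ε → ∃ c C : ℝ, 0 < c ∧ 0 < C ∧
      ∀ t T : ℝ, 0 < t → t ≤ 1 / 8 → 2 ≤ T →
      (nu (heat t Λ) (EXC Λ κ ε A a t T) : ℝ) ≤
        C * Real.exp (-(c * t * Real.log T ^ 2)) * nu (heat t Λ) (ZH Λ t T) ∧
      (nu (heat t Λ) (EXC Λ κ ε A a t T) : ℝ) ≤ C * Real.exp (-(c * t * Real.log T ^ 2)) * T * Real.log T := by
  obtain ⟨H, Z, hG⟩ := h.gy
  exact countA_shift hκ hu hG h.app h.strip h.huge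

end Pool.Agent.R838.CR
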