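import Pool.Agent.R838.CR.Reg
import Pool.Agent.R838.LD.Bigm

set_option autoImplicit false

/-!
# All zeros are regular when `2 τ Om t` is in a fixed range
-/

namespace Pool.Agent.R838.CR

open Complex Filter Topology MeasureTheory Set
open Pool.Agent.Y671.LD (badH FarOK LocH TopOK)
open Pool.Agent.R838.LD
open Pool.Agent.H24R2.JP (Om)
open Pool.Agent.W186.SD (UU NG Grow Std S_NGN)
open Pool.Agent.R838.LD.Y46 (FarOK_mono' FarOK_shift)

/-- No `P` when `2 τ Om t` is in a fixed range. -/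
def BIGP (F : ℂ → ℂ) (P : ℝ → ℂ → Prop) : Prop := ∀ c X : ℝ, 0 < c → c ≤ X →
  ∃ R ε0 η T0 : ℝ, 1 ≤ R ∧ 0 < ε0 ∧ 0 < η ∧ 2 ≤ T0 ∧
  ∀ (t t' τ : ℝ) (s : ℂ), T0 ≤ t → |t - t'| ≤ 1 / 2 → 0 < τ → c ≤ 2 * τ * Om t → 2 * τ * Om t ≤ X →
    FarOK F R ε0 η t' → s.im = t → ¬ P τ s

theorem bigp {F : ℂ → ℂ} {FT : ℝ → ℂ → ℂ}
    (hBM : BIGMI F FT) (hUNG : UNGI F) (hGAP : S_GAP) (hREL : RELI F FT) (ε : ℝ) (hε : 0 < ε) :
    BIGP F (irrH FT ε) := by
  intro c X hc hcX
  obtain ⟨e, he⟩ : ∃ e : ℝ, e = min ε 1 / 2 := ⟨_, rfl⟩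
  have he0 : 0 < e := by
    have := lt_min hε one_pos
    rw [he]; positivity
  have he1 : e ≤ 1 / 2 := by
    have := min_le_right ε 1
    rw [he]; linarith
  have heε : e ≤ ε := by
    have := min_le_left ε 1
    rw [he]; linarith
  have hX : 0 < X := hc.trans_le hcX
  obtain ⟨ηA, aA, hηA, haA, HA⟩ := hGAP e he0
  obtain ⟨R1, ε1, η1, T1, hR1, hε1, hη1, hT1, hB1⟩ := hBM c (2 * X) hc (by linarith)
  obtain ⟨R2, η2, T2, hR2, hη2, hT2, hU⟩ := hUNG (1 / 2) c X (by norm_num) le_rfl hc hcX ηA hηA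
  have hmc : 0 < min c 1 := lt_min hc one_pos
  obtain ⟨ε0, hε0⟩ : ∃ ε0 : ℝ, ε0 = min ε1 (1 / 2 * min c 1 / 10) := ⟨_, rfl⟩
  obtain ⟨η, hη⟩ : ∃ η : ℝ, η = min η1 (η2 / 2) := ⟨_, rfl⟩
  have hηp : 0 < η := by rw [hη]; exact lt_min hη1 (by positivity)
  obtain ⟨K, hK⟩ : ∃ K : ℝ, K = 8 + 4 * X + aA / c + (1 + η) / η := ⟨_, rfl⟩
  have hKp1 : 0 < aA / c := div_pos (by linarith) hc
  have hKp3 : 0 < (1 + η) / η := by positivity
  refine ⟨max R1 (R2 + 1), ε0, η, max (max T1 T2) (Real.exp (2 * K)), ?_, ?_, hηp,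
    (hT1.trans (le_max_left _ _)).trans (le_max_left _ _), ?_⟩
  · exact le_max_of_le_left hR1
  · rw [hε0]; exact lt_min hε1 (by positivity)
  intro t t' τ s ht htt hτ hcr hrX hfar hsim hirr
  have htT1 : T1 ≤ t := ((le_max_left _ _).trans (le_max_left _ _)).trans ht
  have htT2 : T2 ≤ t := ((le_max_right _ _).trans (le_max_left _ _)).trans ht
  have hte : Real.exp (2 * K) ≤ t := (le_max_right _ _).trans ht
  have hOmK : K ≤ Om t := by
    unfold Om
    have h6 : 2 * K ≤ Real.log t := by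
      rw [← Real.log_exp (2 * K)]
      exact Real.log_le_log (Real.exp_pos _) hte
    linarith
  have ht3 : 3 ≤ t := by
    have h6 : 2 * K + 1 ≤ Real.exp (2 * K) := Real.add_one_le_exp _
    have : 4 ≤ K := by rw [hK]; linarith
    linarith
  have hOm8 : 8 ≤ Om t := by rw [hK] at hOmK; linarith
  have hOm4X : 4 * X ≤ Om t := by rw [hK] at hOmK; linarith
  have hOmpos : 0 < Om t := by linarith
  have hOmA : aA ≤ c * Om t := by
    have : aA / c ≤ Om t := by rw [hK] at hOmK; linarith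
    rwa [div_le_iff₀ hc, mul_comm] at this
  have hOmη : (1 + η) / η ≤ Om t := by rw [hK] at hOmK; linarith
  have htt' := abs_le.1 htt
  have hOmt' : 0 ≤ Om t' := by
    unfold Om
    have : 0 ≤ Real.log t' := Real.log_nonneg (by linarith)
    linarith
  -- the local situation at `t`
  have hfar2 : FarOK F (R2 + 1) (1 / 2 * min c 1 / 10) η t' :=
    FarOK_mono' hfar (le_max_right _ _) (by rw [hε0]; exact min_le_right _ _) le_rfl hOmt'
  have hfart : FarOK F R2 (1 / 2 * min c 1 / 10) η2 t := by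
    have h := FarOK_shift hfar2 ht3 (by linarith) hηp hOmη
    refine FarOK_mono' h le_rfl le_rfl ?_ hOmpos.le
    have := min_le_right η1 (η2 / 2)
    rw [hη]; linarith
  obtain ⟨r, hr⟩ : ∃ r : ℝ, r = 2 * τ * Om t := ⟨_, rfl⟩
  rw [← hr] at hcr hrX
  have hr0 : 0 < r := hc.trans_le hcr
  obtain ⟨a, ha⟩ : ∃ a : ℝ, a = r * Om t := ⟨_, rfl⟩
  have hcOm : c * Om t ≤ a := by rw [ha]; exact mul_le_mul_of_nonneg_right hcr hOmpos.le
  have haA' : aA ≤ a := hOmA.trans hcOm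
  have ha1 : 1 ≤ a := haA.trans haA'
  have hg : r ^ 2 / (4 * τ) = a / 2 := by
    rw [ha, hr]; field_simp; norm_num
  have hNG : NG (1 / 2) a (a / 2) ηA (fun z => F (I * t + r * z)) := by
    rw [ha]
    refine hU t r (r * Om t / 2) htT2 hcr hrX ?_ hfart
    nlinarith
  have hGAP' := HA a _ haA' hNG
  have h4 : 4 * r / a = 4 / Om t := by
    rw [ha]
    field_simp
  have h4le : 4 / Om t ≤ 1 / 2 := by
    rw [div_le_div_iff₀ hOmpos (by norm_num)]
    linarith
  have hnear : ∀ z : ℂ, FT τ z = 0 → s.im ≤ z.im → z.im ≤ s.im + 4 * r / a →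
      z.re = 0 ∧ deriv (FT τ) z ≠ 0 := by
    intro z hz hz1 hz2
    rw [h4, hsim] at hz2
    rw [hsim] at hz1
    have hOz1 : Om t ≤ Om z.im := by
      unfold Om
      have := Real.log_le_log (by linarith) hz1
      linarith
    have hOz2 : Om z.im ≤ 2 * Om t := by
      unfold Om
      have h5 : Real.log z.im ≤ Real.log (t ^ 2) := Real.log_le_log (by linarith) (by nlinarith)
      rw [Real.log_pow] at h5
      push_cast at h5
      linarith
    have h := hB1 z.im t' τ z (htT1.trans hz1) (by rw [abs_le]; constructor <;> linarith [htt'.1, htt'.2]) hτ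
      (by
        refine hcr.trans ?_
        rw [hr]
        exact mul_le_mul_of_nonneg_left hOz1 (by positivity))
      (by
        have h5 := mul_le_mul_of_nonneg_left hOz2 (by positivity : 0 ≤ 2 * τ)
        rw [hr] at hrX
        linarith)
      (FarOK_mono' hfar (le_max_left _ _) (by rw [hε0]; exact min_le_left _ _)
        (by rw [hη]; exact min_le_left _ _) hOmt') rfl
    by_contra hcon
    apply h
    refine ⟨hz, ?_⟩
    by_cases h1 : z.re = 0
    · right
      by_contra h2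
      exact hcon ⟨h1, h2⟩
    · left; exact h1
  obtain ⟨hs0, hnreg⟩ := hirr
  obtain ⟨q1, q2, g, hg0, hg4, q3, q4, q5, q6⟩ := reg_local hREL hτ hr0 ha1 he1 hg hGAP' hs0
    (by rw [hsim, sub_self, abs_zero]; positivity) hnear
  apply hnreg
  refine ⟨q1, q2, g, hg0, ?_, q4, q5, q6⟩
  have e1 : a * (g / r) = g * Om s.im := by
    rw [ha, hsim]
    field_simp
  rw [e1] at q3
  exact q3.trans heε

end Pool.Agent.R838.CR
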