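import Pool.Agent.R838.CR.Hdyp
import Pool.Agent.R838.LD.CntY

set_option autoImplicit false

/-!
# Counting the zeros of the heat flow which are not regular, arbitrary degree

Variant of `Pool.Agent.R838.LD.CntY`, itself a variant of parts of the starting modules `Pool.Agent.Y671.GL.Cnt` and
`Shift` (by helper671).
-/

namespace Pool.Agent.R838.CR

open Complex Filter Topology Set
open scoped ComplexConjugate
open Pool.Agent.W169.HF (heat Slow)
open Pool.Agent.Y671.LD (bad badH order_const_mul iter_diff)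
open Pool.Agent.Y671.GL
open Pool.Agent.Y693.GL (GY)

/-- The zeros of `heat t Λ` with imaginary part in `(T, 2T]` which are not regular. -/
def IRX (Λ : ℂ → ℂ) (κ ε a t T : ℝ) : Set ℂ := {s | s ∈ ZH Λ t T ∧ ¬ regX (heat t Λ) κ ε a s}

section flow

variable {κ : ℝ} {H X Z : ℂ → ℂ}

/-- **Counting, zeros which are not regular.** -/
theorem countP (hκ : 1 / 2 ≤ κ) (hG : GY κ H X Z) (hA : AppX X)
    (hst : ∀ s : ℂ, X s = 0 → |s.re| ≤ 1 / 2) (hH : HugeX X) {ε A : ℝ} (hε : 0 < ε) :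
    ∃ c C : ℝ, 0 < c ∧ 0 < C ∧ ∀ t T : ℝ, 0 < t → t ≤ 1 / 8 → 2 ≤ T → t * Real.log T ≤ A →
      (nu (heat t X) (IRX X κ ε 0 t T) : ℝ) ≤
        C * Real.exp (-(c * t * Real.log T ^ 2)) * nu (heat t X) (ZH X t T) ∧
      (nu (heat t X) (IRX X κ ε 0 t T) : ℝ) ≤ C * Real.exp (-(c * t * Real.log T ^ 2)) * T * Real.log T := by
  have hfinZ := fun (t : ℝ) (ht : 0 ≤ t) (T : ℝ) => ZH_fin hκ hG.cg hA hst ht T
  have hsub : ∀ t T, IRX X κ ε 0 t T ⊆ ZH X t T := fun t T s h => h.1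
  obtain ⟨c, C, hc, hC, hfin⟩ := hdyp κ H X Z hκ hG hst hH ε A hε
  obtain ⟨X0, hX0⟩ : ∃ X0 : ℝ, X0 = max A 1 := ⟨_, rfl⟩
  have hX01 : 1 ≤ X0 := by rw [hX0]; exact le_max_right _ _
  have hX0A : A ≤ X0 := by rw [hX0]; exact le_max_left _ _
  obtain ⟨c2, T0, hc2, hT0, htot⟩ := Pool.Agent.Y67.GL.toth κ H X Z hκ hG.cg hst X0 hX01
  obtain ⟨T2, hT2⟩ : ∃ T2 : ℝ, T2 = max T0 1 := ⟨_, rfl⟩
  have hT21 : 1 ≤ T2 := by rw [hT2]; exact le_max_right _ _
  have hexc : ∀ t T : ℝ, 0 < t → t ≤ 1 / 8 → 2 ≤ T → t * Real.log T ≤ A →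
      (nu (heat t X) (IRX X κ ε 0 t T) : ℝ) ≤ C * T * Real.log T * Real.exp (-(c * t * Real.log T ^ 2)) := by
    intro t T ht ht' hT htA
    refine nu_le ((hfinZ t ht.le T).subset (hsub t T)) fun S hS => hfin T t hT ht ht' htA S fun s hs => ?_
    obtain ⟨⟨h1, h2, h3⟩, h4⟩ := hS s hs
    exact ⟨⟨h1, h4⟩, h2, h3⟩
  refine ⟨c, C + C / c2 + Real.exp (c * Real.log T2 ^ 2), hc, by positivity, ?_⟩
  intro t T ht ht' hT htA
  have hE := Real.exp_pos (-(c * t * Real.log T ^ 2))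
  have hl0 : 0 < Real.log T := Real.log_pos (by linarith)
  have hZ0 : (0 : ℝ) ≤ nu (heat t X) (ZH X t T) := Nat.cast_nonneg _
  have hT00 : 0 < T := by linarith
  refine ⟨?_, ?_⟩
  · rcases lt_or_ge T T2 with hT3 | hT3
    · have h4 : 1 ≤ Real.exp (c * Real.log T2 ^ 2) * Real.exp (-(c * t * Real.log T ^ 2)) := by
        rw [← Real.exp_add]
        apply Real.one_le_exp
        have h5 : Real.log T ≤ Real.log T2 := Real.log_le_log hT00 hT3.le
        have h6 : Real.log T ^ 2 ≤ Real.log T2 ^ 2 := by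
          apply pow_le_pow_left₀ hl0.le h5
        have h7 : t * Real.log T ^ 2 ≤ 1 * Real.log T2 ^ 2 := by
          apply mul_le_mul (by linarith) h6 (by positivity) (by norm_num)
        nlinarith
      calc (nu (heat t X) (IRX X κ ε 0 t T) : ℝ) ≤ nu (heat t X) (ZH X t T) :=
            nu_mono (hfinZ t ht.le T) (hsub t T)
        _ = 1 * nu (heat t X) (ZH X t T) := by ring
        _ ≤ (Real.exp (c * Real.log T2 ^ 2) * Real.exp (-(c * t * Real.log T ^ 2))) *
            nu (heat t X) (ZH X t T) := by gcongr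
        _ ≤ _ := by
          have : 0 ≤ (C + C / c2) * Real.exp (-(c * t * Real.log T ^ 2)) * nu (heat t X) (ZH X t T) := by positivity
          linarith
    · have hT4 : T0 ≤ T := by rw [hT2] at hT3; exact (le_max_left _ _).trans hT3
      obtain ⟨S, hS, h7⟩ := htot T t hT4 ht.le ht' (htA.trans hX0A)
      have h7' : c2 * T * Real.log T ≤ nu (heat t X) (ZH X t T) :=
        h7.trans (le_nu (hfinZ t ht.le T) S hS)
      have h8 := hexc t T ht ht' hT htA
      have h9 : C * T * Real.log T * Real.exp (-(c * t * Real.log T ^ 2)) ≤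
          C / c2 * Real.exp (-(c * t * Real.log T ^ 2)) * nu (heat t X) (ZH X t T) := by
        calc C * T * Real.log T * Real.exp (-(c * t * Real.log T ^ 2)) =
            C / c2 * Real.exp (-(c * t * Real.log T ^ 2)) * (c2 * T * Real.log T) := by
              field_simp
          _ ≤ _ := by gcongr
      have h10 : 0 ≤ (C + Real.exp (c * Real.log T2 ^ 2)) * Real.exp (-(c * t * Real.log T ^ 2)) *
          nu (heat t X) (ZH X t T) := by
        positivity
      linarith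
  · have h8 := hexc t T ht ht' hT htA
    have h9 : 0 ≤ (C / c2 + Real.exp (c * Real.log T2 ^ 2)) *
        Real.exp (-(c * t * Real.log T ^ 2)) * T * Real.log T := by
      positivity
    linarith

end flow

section shift

variable {Λ : ℂ → ℂ} {u : ℂ} {a : ℝ}

/-- regular zeros under a shift of the variable -/
lemma regX_shift {Y : ℂ → ℂ} {u : ℂ} (hu : u ≠ 0) (a κ ε : ℝ) (z : ℂ) :
    regX (fun z => u * Y ((a : ℂ) + z)) κ ε 0 z ↔ regX Y κ ε a ((a : ℂ) + z) := by
  have hd : ∀ w : ℂ, deriv (fun z => u * Y ((a : ℂ) + z)) w = u * deriv Y ((a : ℂ) + w) := by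
    intro w
    rw [deriv_const_mul_field, deriv_comp_const_add]
  have him : ((a : ℂ) + z).im = z.im := by simp
  have hre : ((a : ℂ) + z).re = a + z.re := by simp
  unfold regX
  rw [him, hre, hd]
  constructor
  · rintro ⟨h1, h2, g, h3, h4, h5, h6, h7⟩
    refine ⟨by linarith, fun h => h2 (by rw [h, mul_zero]), g, h3, h4, ?_, ?_, ?_⟩
    · have := (mul_eq_zero.1 h5).resolve_left hu
      rwa [add_assoc]
    · intro h
      rw [add_assoc] at h
      rw [hd, h, mul_zero] at h6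
      exact h6 rfl
    · intro w hw1 hw2 hw3
      have e : (a : ℂ) + (w - a) = w := by ring
      have h8 := h7 (w - a) (by
        show u * Y ((a : ℂ) + (w - a)) = 0
        rw [e, hw1, mul_zero]) (by simpa using hw2) (by simpa using hw3)
      rcases h8 with h8 | h8
      · left; rw [← h8, e]
      · right
        rw [add_assoc, ← h8, e]
  · rintro ⟨h1, h2, g, h3, h4, h5, h6, h7⟩
    rw [add_assoc] at h5 h6
    refine ⟨by linarith, mul_ne_zero hu h2, g, h3, h4, ?_, ?_, ?_⟩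
    · show u * Y ((a : ℂ) + (z + g * I)) = 0
      rw [h5, mul_zero]
    · rw [hd]; exact mul_ne_zero hu h6
    · intro w hw1 hw2 hw3
      have hw : Y ((a : ℂ) + w) = 0 := (mul_eq_zero.1 hw1).resolve_left hu
      have h8 := h7 ((a : ℂ) + w) hw (by simpa using hw2) (by simpa using hw3)
      rcases h8 with h8 | h8
      · left; exact add_left_cancel h8
      · right
        rw [add_assoc] at h8
        exact add_left_cancel h8

lemma IRX_image (hu : u ≠ 0) (κ ε t T : ℝ) :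
    (fun z => (a : ℂ) + z) '' IRX (fun z => u * Λ ((a : ℂ) + z)) κ ε 0 t T = IRX Λ κ ε a t T := by
  have hZ := ZH_image (Λ := Λ) (a := a) hu t T
  ext s
  constructor
  · rintro ⟨z, ⟨h1, h2⟩, rfl⟩
    refine ⟨by rw [← hZ]; exact ⟨z, h1, rfl⟩, ?_⟩
    rw [heat_shift', regX_shift hu] at h2
    exact h2
  · rintro ⟨h1, h2⟩
    rw [← hZ] at h1
    obtain ⟨z, h3, rfl⟩ := h1
    refine ⟨z, ⟨h3, ?_⟩, rfl⟩
    rw [heat_shift', regX_shift hu]
    exact h2

/-- **Zeros of the heat flow which are not regular**, in terms of `Λ`. -/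
theorem countP_shift {κ : ℝ} {H Z : ℂ → ℂ} (hκ : 1 / 2 ≤ κ) (hu : u ≠ 0)
    (hG : GY κ H (fun z => u * Λ ((a : ℂ) + z)) Z) (hA : AppX (fun z => u * Λ ((a : ℂ) + z)))
    (hst : ∀ s : ℂ, (fun z => u * Λ ((a : ℂ) + z)) s = 0 → |s.re| ≤ 1 / 2)
    (hH : HugeX (fun z => u * Λ ((a : ℂ) + z))) {ε A : ℝ} (hε : 0 < ε) :
    ∃ c C : ℝ, 0 < c ∧ 0 < C ∧
      ∀ t T : ℝ, 0 < t → t ≤ 1 / 8 → 2 ≤ T → t * Real.log T ≤ A →
      (nu (heat t Λ) (IRX Λ κ ε a t T) : ℝ) ≤
        C * Real.exp (-(c * t * Real.log T ^ 2)) * nu (heat t Λ) (ZH Λ t T) ∧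
      (nu (heat t Λ) (IRX Λ κ ε a t T) : ℝ) ≤ C * Real.exp (-(c * t * Real.log T ^ 2)) * T * Real.log T := by
  obtain ⟨hd, -⟩ := hht_of hκ hG.cg hA hst
  have hΛ : ∀ t : ℝ, 0 ≤ t → Differentiable ℂ (heat t Λ) := by
    intro t ht
    have h1 : Differentiable ℂ (fun s => u⁻¹ * heat t (fun z => u * Λ ((a : ℂ) + z)) (s - a)) :=
      ((hd t ht).comp (by fun_prop)).const_mul _
    have h2 : (fun s => u⁻¹ * heat t (fun z => u * Λ ((a : ℂ) + z)) (s - a)) = heat t Λ := by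
      rw [heat_shift']
      funext s
      simp only [add_sub_cancel]
      rw [inv_mul_cancel_left₀ hu]
    rwa [h2] at h1
  have hfin := fun (t : ℝ) (ht : 0 ≤ t) (T : ℝ) => ZH_fin hκ hG.cg hA hst ht T
  obtain ⟨c, C, hc, hC, h1⟩ := countP hκ hG hA hst hH (A := A) hε
  have e1 : ∀ (t T : ℝ), 0 ≤ t → nu (heat t (fun z => u * Λ ((a : ℂ) + z)))
      (ZH (fun z => u * Λ ((a : ℂ) + z)) t T) = nu (heat t Λ) (ZH Λ t T) := by
    intro t T ht
    rw [← ZH_image (Λ := Λ) (a := a) hu, heat_shift' u a Λ t, nu_shift (hΛ t ht) hu a (hfin t ht T)]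
  have e2 : ∀ (t T : ℝ), 0 ≤ t → nu (heat t (fun z => u * Λ ((a : ℂ) + z)))
      (IRX (fun z => u * Λ ((a : ℂ) + z)) κ ε 0 t T) = nu (heat t Λ) (IRX Λ κ ε a t T) := by
    intro t T ht
    rw [← IRX_image (Λ := Λ) (a := a) hu, heat_shift' u a Λ t,
      nu_shift (hΛ t ht) hu a ((hfin t ht T).subset fun s h => h.1)]
  refine ⟨c, C, hc, hC, fun t T ht ht' hT htA => ?_⟩
  rw [← e1 t T ht.le, ← e2 t T ht.le]
  exact h1 t T ht ht' hT htA

end shift

end Pool.Agent.R838.CR
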