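import Pool.Agent.R838.CR.Dyp
import Pool.Agent.R838.LD.AllH

set_option autoImplicit false

/-!
# Counting zeros with a property which is absent at good points: all heights
-/

namespace Pool.Agent.R838.CR

open Complex Filter Topology MeasureTheory Set
open Pool.Agent.Y671.LD (badH FarOK LocH TopOK)
open Pool.Agent.R838.LD
open Pool.Agent.H24R2.JP (Om)

theorem finp {F : ℂ → ℂ} {FT : ℝ → ℂ → ℂ} (hI : INS F FT)
    (P : ℝ → ℂ → Prop) (hP0 : ∀ (τ : ℝ) (s : ℂ), P τ s → FT τ s = 0)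
    (hPP : PTP F P) (hBP : BIGP F P) (A : ℝ) :
    ∃ c C : ℝ, 0 < c ∧ 0 < C ∧ ∀ T τ : ℝ, 2 ≤ T → 0 < τ → τ ≤ 1 / 8 → τ * Real.log T ≤ A →
    ∀ S : Finset ℂ, (∀ s ∈ S, P τ s ∧ T < s.im ∧ s.im ≤ 2 * T) →
    ∑ s ∈ S, (analyticOrderNatAt (FT τ) s : ℝ) ≤
      C * T * Real.log T * Real.exp (-(c * τ * Real.log T ^ 2)) := by
  obtain ⟨c, C, T0, hc, hC, hT0, hD⟩ := dyp hI.top P hP0
    (midp hI.good hI.top hI.unit hI.pt hI.cnx Pool.Agent.W337.SD.cov P hP0 hPP) hBP hI.unit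
    Pool.Agent.W337.SD.cov A
  obtain ⟨C1, hC1⟩ := hI.lowc (2 * T0)
  obtain ⟨C2, hC2⟩ : ∃ C2 : ℝ, C2 = max C1 0 := ⟨_, rfl⟩
  have hC20 : 0 ≤ C2 := by rw [hC2]; exact le_max_right _ _
  have hC21 : C1 ≤ C2 := by rw [hC2]; exact le_max_left _ _
  obtain ⟨M, hM⟩ : ∃ M : ℝ, M = Real.exp (c * Real.log T0 ^ 2) := ⟨_, rfl⟩
  have hM0 : 0 < M := by rw [hM]; exact Real.exp_pos _
  have hl2 : 0 < Real.log 2 := Real.log_pos (by norm_num)
  refine ⟨c, C + C2 * M / Real.log 2, hc, by positivity, ?_⟩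
  intro T τ hT hτ hτ8 hτA S hS
  have hTp : 0 < T := by linarith
  have hL : Real.log 2 ≤ Real.log T := Real.log_le_log (by norm_num) hT
  have hLp : 0 < Real.log T := hl2.trans_le hL
  have hE : 0 < Real.exp (-(c * τ * Real.log T ^ 2)) := Real.exp_pos _
  by_cases hb : T0 ≤ T
  · refine (hD T τ hb hτ hτA S hS).trans ?_
    have h1 : 0 ≤ C2 * M / Real.log 2 * (T * Real.log T * Real.exp (-(c * τ * Real.log T ^ 2))) := by
      positivity
    calc C * T * Real.exp (-(c * τ * Real.log T ^ 2)) * Real.log T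
        = C * (T * Real.log T * Real.exp (-(c * τ * Real.log T ^ 2))) := by ring
      _ ≤ C * (T * Real.log T * Real.exp (-(c * τ * Real.log T ^ 2))) +
          C2 * M / Real.log 2 * (T * Real.log T * Real.exp (-(c * τ * Real.log T ^ 2))) := by linarith
      _ = _ := by ring
  · push Not at hb
    have h1 := hC1 τ hτ.le hτ8 S (fun s hs => by
      obtain ⟨h2, h3, h4⟩ := hS s hs
      refine ⟨?_, hP0 _ _ h2⟩
      rw [abs_le]
      constructor <;> linarith)
    have hlog : Real.log T ≤ Real.log T0 := Real.log_le_log hTp hb.le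
    have h2 : c * τ * Real.log T ^ 2 ≤ c * Real.log T0 ^ 2 := by
      have h3 : Real.log T ^ 2 ≤ Real.log T0 ^ 2 := by gcongr
      calc c * τ * Real.log T ^ 2 ≤ c * 1 * Real.log T0 ^ 2 := by
            gcongr
            linarith
        _ = _ := by ring
    have h3 : 1 ≤ M * Real.exp (-(c * τ * Real.log T ^ 2)) := by
      rw [hM, ← Real.exp_add]
      apply Real.one_le_exp
      linarith
    have h4 : 1 ≤ T * Real.log T / Real.log 2 := by
      rw [le_div_iff₀ hl2]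
      nlinarith
    calc ∑ s ∈ S, (analyticOrderNatAt (FT τ) s : ℝ) ≤ C2 := h1.trans hC21
      _ = C2 * (1 * 1) := by ring
      _ ≤ C2 * ((M * Real.exp (-(c * τ * Real.log T ^ 2))) * (T * Real.log T / Real.log 2)) := by
          gcongr
      _ = C2 * M / Real.log 2 * (T * Real.log T * Real.exp (-(c * τ * Real.log T ^ 2))) := by
          field_simp
      _ ≤ C * (T * Real.log T * Real.exp (-(c * τ * Real.log T ^ 2))) +
          C2 * M / Real.log 2 * (T * Real.log T * Real.exp (-(c * τ * Real.log T ^ 2))) := by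
          have : 0 ≤ C * (T * Real.log T * Real.exp (-(c * τ * Real.log T ^ 2))) := by positivity
          linarith
      _ = _ := by ring

/-- The zeros which are not regular, abstract form. -/
theorem fin_irr {F : ℂ → ℂ} {FT : ℝ → ℂ → ℂ} (hI : INS F FT) (ε A : ℝ)
    (hε : 0 < ε) :
    ∃ c C : ℝ, 0 < c ∧ 0 < C ∧ ∀ T τ : ℝ, 2 ≤ T → 0 < τ → τ ≤ 1 / 8 → τ * Real.log T ≤ A →
    ∀ S : Finset ℂ, (∀ s ∈ S, irrH FT ε τ s ∧ T < s.im ∧ s.im ≤ 2 * T) →
    ∑ s ∈ S, (analyticOrderNatAt (FT τ) s : ℝ) ≤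
      C * T * Real.log T * Real.exp (-(c * τ * Real.log T ^ 2)) :=
  finp hI (irrH FT ε) (fun _ _ h => h.1)
    (gapl hI.pt hI.grow Pool.Agent.W333.SDNGN.ngn (gap Pool.Agent.Y671.LD.ud) hI.rel ε hε)
    (bigp hI.bigm hI.ung (gap Pool.Agent.Y671.LD.ud) hI.rel ε hε) A

/-- The hypotheses hold for all completed L-functions. -/
theorem ins_of {B : ℝ} {F : ℂ → ℂ} {FT : ℝ → ℂ → ℂ} {hh : ℝ → ℝ} (hd : HD B F FT hh) : INS F FT where
  rel := hrel B F FT hh hd
  ung := hung B F FT hh hd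
  bigm := hbigm B F FT hh hd
  unit := hunit B F FT hh hd
  grow := hgrow B F FT hh hd
  pt := hpt B F FT hh hd
  cnx := hcnx B F FT hh hd
  good := hd.good
  top := hd.top
  lowc := hd.lowc

end Pool.Agent.R838.CR
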