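import Pool.Agent.R838.CR.Reg
import Pool.Agent.R838.LD.PT

set_option autoImplicit false

/-!
# All zeros at good points are regular
-/

namespace Pool.Agent.R838.CR

open Complex Filter Topology MeasureTheory Set
open Pool.Agent.Y671.LD (badH FarOK LocH TopOK)
open Pool.Agent.R838.LD
open Pool.Agent.H24R2.JP (Om)
open Pool.Agent.H24R2.DZ (ra NN)
open Pool.Agent.W186.SD (UU NG Grow Std S_NGN)
open Pool.Agent.W186.SD.PTaux (NG_mono NN_mono)
open Pool.Agent.R838.LD.Y228 (LocH_mono FarOK_mono)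

/-- Near the height `t` all scales `2^j a`, `j0 ≤ j ≤ J`, are good (with smaller distances). -/
def LocH2 (F : ℂ → ℂ) (η T a : ℝ) (j0 J : ℕ) (t : ℝ) : Prop := ∀ j : ℕ, j0 ≤ j → j ≤ J →
  ∃ t' : ℝ, |t - t'| ≤ ra T (2 ^ j * a) / 200 ∧
    NN (2 ^ j * a) η (fun z => F (I * t' + ra T (2 ^ j * a) * z))

/-- The top condition (with a smaller distance). -/
def TopOK2 (F : ℂ → ℂ) (R η t : ℝ) : Prop := ∃ t' : ℝ, |t - t'| ≤ 1 / 200 ∧ FarOK F R (1 / 400) η t'

/-- No `P` at good points. -/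
def PTP (F : ℂ → ℂ) (P : ℝ → ℂ → Prop) : Prop :=
  ∃ R η c0 a0 T0 : ℝ, 1 ≤ R ∧ 0 < η ∧ 0 < c0 ∧ 1 ≤ a0 ∧ 2 ≤ T0 ∧
  ∀ (T τ a : ℝ) (J : ℕ) (s : ℂ), T0 ≤ T → a0 ≤ a → Std c0 T τ a J → T < s.im → s.im ≤ 2 * T →
    LocH2 F η T a 0 J s.im → TopOK2 F R η s.im → ¬ P τ s

lemma LocH2.toH {F : ℂ → ℂ} {η T a : ℝ} {j0 J : ℕ} {t t1 : ℝ} (ha : 0 ≤ a) (hT : 1 ≤ T)
    (H : LocH2 F η T a j0 J t) (h : |t1 - t| ≤ ra T a / 200) : LocH F η T a j0 J t1 := by
  intro j h1 h2
  obtain ⟨t', h3, h4⟩ := H j h1 h2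
  refine ⟨t', ?_, h4⟩
  have h5 : ra T a ≤ ra T (2 ^ j * a) := by
    unfold ra
    have h6 : (1 : ℝ) ≤ 2 ^ j := one_le_pow₀ (by norm_num)
    have h7 : 0 ≤ Real.log T := Real.log_nonneg hT
    apply div_le_div_of_nonneg_right _ (by positivity)
    nlinarith
  have h8 := abs_sub_le t1 t t'
  linarith

lemma TopOK2.toH {F : ℂ → ℂ} {R η t t1 : ℝ} (H : TopOK2 F R η t) (h : |t1 - t| ≤ 1 / 200) :
    TopOK F R η t1 := by
  obtain ⟨t', h1, h2⟩ := H
  refine ⟨t', ?_, h2⟩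
  have h8 := abs_sub_le t1 t t'
  linarith

lemma top_mono2 {F : ℂ → ℂ} {R R' η η' t : ℝ} (hR : R' ≤ R) (h : η ≤ η') (ht : 2 ≤ t)
    (H : TopOK F R η t) : TopOK F R' η' t := by
  obtain ⟨t', h1, h2⟩ := H
  refine ⟨t', h1, FarOK_mono ?_ hR h h2⟩
  have h3 := abs_le.1 h1
  show 0 ≤ Real.log t' / 2
  have : 0 ≤ Real.log t' := Real.log_nonneg (by linarith [h3.1, h3.2])
  linarith

theorem gapl {F : ℂ → ℂ} {FT : ℝ → ℂ → ℂ}
    (hPT : PTI F FT) (hGR : GROWI F) (hNGN : S_NGN) (hGAP : S_GAP) (hREL : RELI F FT) (ε : ℝ) (hε : 0 < ε) :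
    PTP F (irrH FT ε) := by
  obtain ⟨e, he⟩ : ∃ e : ℝ, e = min ε 1 / 2 := ⟨_, rfl⟩
  have he0 : 0 < e := by
    have := lt_min hε one_pos
    rw [he]; positivity
  have he1 : e ≤ 1 / 2 := by
    have := min_le_right ε 1
    rw [he]; linarith
  have heε : 2 * e ≤ ε := by
    have := min_le_left ε 1
    rw [he]; linarith
  obtain ⟨ηA, aA, hηA, haA, HA⟩ := hGAP e he0
  obtain ⟨ηN, hηN, HN⟩ := hNGN ηA hηA
  obtain ⟨RG, ηG, cG, TG, hRG, hηG, hcG, hTG, HG⟩ := hGR
  obtain ⟨RP, ηP, cP, aP, TP, hRP, hηP, hcP, haP, hTP, HP⟩ := hPT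
  refine ⟨max RG RP, min (min ηN ηG) ηP, min (min cG cP) 1, max (max aA aP) 800,
    max (max TG TP) (max (Real.exp (8 / e)) (Real.exp 4)), ?_, ?_, ?_, ?_, ?_, ?_⟩
  · exact le_max_of_le_left hRG
  · exact lt_min (lt_min hηN hηG) hηP
  · exact lt_min (lt_min hcG hcP) one_pos
  · exact le_max_of_le_left (le_max_of_le_left haA)
  · exact le_max_of_le_left (le_max_of_le_left hTG)
  intro T τ a J s hT ha hS hs1 hs2 hLoc hTop hirr
  have hT1 : TG ≤ T := (le_max_left _ _).trans ((le_max_left _ _).trans hT)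
  have hT2 : TP ≤ T := (le_max_right _ _).trans ((le_max_left _ _).trans hT)
  have hT3 : Real.exp (8 / e) ≤ T := (le_max_left _ _).trans ((le_max_right _ _).trans hT)
  have hT4 : Real.exp 4 ≤ T := (le_max_right _ _).trans ((le_max_right _ _).trans hT)
  have haA' : aA ≤ a := (le_max_left _ _).trans ((le_max_left _ _).trans ha)
  have haP' : aP ≤ a := (le_max_right _ _).trans ((le_max_left _ _).trans ha)
  have ha800 : 800 ≤ a := (le_max_right _ _).trans ha
  have ha1 : 1 ≤ a := by linarith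
  have ha0 : 0 < a := by linarith
  have hTpos : 0 < T := lt_of_lt_of_le (Real.exp_pos 4) hT4
  have hlog : 4 ≤ Real.log T := by
    rw [Real.le_log_iff_exp_le hTpos]; exact hT4
  have hlog8 : 8 / e ≤ Real.log T := by
    rw [Real.le_log_iff_exp_le hTpos]; exact hT3
  have hT5 : (5 : ℝ) ≤ T := by
    have := Real.add_one_le_exp (4 : ℝ)
    linarith
  obtain ⟨ω, hω⟩ : ∃ ω : ℝ, ω = Om T := ⟨_, rfl⟩
  have hωe : ω = Real.log T / 2 := by rw [hω]; rfl
  have hω2 : 2 ≤ ω := by rw [hωe]; linarith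
  have hωe4 : 4 / e ≤ ω := by
    rw [hωe]
    have : 8 / e = 2 * (4 / e) := by ring
    linarith
  have hτ := hS.tau
  have hae := hS.a_eq
  rw [← hω] at hae
  have hsm : a ≤ min (min cG cP) 1 * ω := by rw [hω]; exact hS.small
  have hStd : ∀ c : ℝ, min (min cG cP) 1 ≤ c → Std c T τ a J := fun c hc =>
    ⟨hτ, hS.a_eq, hS.small.trans (mul_le_mul_of_nonneg_right hc (by rw [← hω]; linarith)), hS.top, hS.top'⟩
  have hSG : Std cG T τ a J := hStd cG ((min_le_left _ _).trans (min_le_left _ _))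
  have hSP : Std cP T τ a J := hStd cP ((min_le_left _ _).trans (min_le_right _ _))
  obtain ⟨r, hr⟩ : ∃ r : ℝ, r = ra T a := ⟨_, rfl⟩
  have hre : r = a / ω := by rw [hr, hωe]; rfl
  have hr0 : 0 < r := by rw [hre]; positivity
  have hr1 : r ≤ 1 := by
    rw [hre, div_le_one (by linarith)]
    refine hsm.trans ?_
    have := mul_le_mul_of_nonneg_right (min_le_right (min cG cP) 1) (by linarith : (0 : ℝ) ≤ ω)
    linarith
  have h4ra : 4 * r / a ≤ r / 200 := by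
    rw [div_le_div_iff₀ ha0 (by norm_num)]
    nlinarith
  have hη1 : min (min ηN ηG) ηP ≤ ηN := (min_le_left _ _).trans (min_le_left _ _)
  have hη2 : min (min ηN ηG) ηP ≤ ηG := (min_le_left _ _).trans (min_le_right _ _)
  have hη3 : min (min ηN ηG) ηP ≤ ηP := min_le_right _ _
  -- zeros near the height of `s`
  have hnear : ∀ z : ℂ, FT τ z = 0 → |z.im - s.im| ≤ r / 200 → z.re = 0 ∧ deriv (FT τ) z ≠ 0 := by
    intro z hz hzs
    have hzs' := abs_le.1 hzs
    have hL : LocH F ηP T a 0 J z.im := by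
      have := hLoc.toH ha0.le (by linarith) (t1 := z.im) (by rw [← hr]; exact hzs)
      exact LocH_mono ha0.le hη3 le_rfl this
    have hTz : TopOK F RP ηP z.im := by
      refine top_mono2 (le_max_right _ _) hη3 (by linarith [hzs'.1, hzs'.2]) (hTop.toH (hzs.trans ?_))
      linarith
    have h := (HP T τ a J 0 z hT2 haP' hSP (by linarith [hzs'.1, hzs'.2]) (by linarith [hzs'.1, hzs'.2])
      (Nat.zero_le _) hL hTz hz).2 rfl
    by_contra hcon
    apply h
    refine ⟨hz, ?_⟩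
    by_cases h1 : z.re = 0
    · right
      by_contra h2
      exact hcon ⟨h1, h2⟩
    · left; exact h1
  -- the local situation
  obtain ⟨t', ht', hNN⟩ := hLoc 0 le_rfl (Nat.zero_le _)
  have e20 : (2 : ℝ) ^ 0 * a = a := by norm_num
  rw [e20, ← hr] at ht' hNN
  have hGrow := HG T τ a s.im t' J 0 hT1 ha1 hSG (by linarith) (by linarith) (Nat.zero_le _)
    (LocH_mono ha0.le hη2 le_rfl (hLoc.toH ha0.le (by linarith) (t1 := s.im) (by
      rw [sub_self, abs_zero, ← hr]; positivity)))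
    (top_mono2 (le_max_left _ _) hη2 (by linarith) (hTop.toH (by rw [sub_self, abs_zero]; norm_num)))
    (by rw [e20, ← hr]; linarith) (by rw [e20, ← hr]; exact NN_mono ha0.le hη2 hNN)
  rw [e20, ← hr] at hGrow
  have hg : r ^ 2 / (4 * τ) = a / 2 := by
    rw [hre]
    have : ω ≠ 0 := by linarith
    have hτ' : τ ≠ 0 := hτ.ne'
    rw [hae]
    field_simp
    norm_num
  rw [hg] at hGrow
  have hNG : NG (1 / 2) a (a / 2) ηA (fun z => F (I * t' + r * z)) :=
    HN a (a / 2) _ ha1 (NN_mono ha0.le hη1 hNN) hGrow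
  have hGAP' := HA a _ haA' hNG
  obtain ⟨hs0, hnreg⟩ := hirr
  have hst : |s.im - t'| ≤ r / 2 := by linarith
  obtain ⟨q1, q2, g, hg0, hg4, q3, q4, q5, q6⟩ := reg_local hREL hτ hr0 ha1 he1 hg hGAP' hs0 hst
    (fun z hz hz1 hz2 => hnear z hz (by rw [abs_of_nonneg (by linarith)]; linarith))
  apply hnreg
  refine ⟨q1, q2, g, hg0, ?_, q4, q5, q6⟩
  have e1 : a * (g / r) = g * ω := by
    rw [hre]
    have : ω ≠ 0 := by linarith
    field_simp
  rw [e1] at q3
  have hgω : g * ω ≤ 4 := by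
    have hpi2 := Real.pi_lt_d2
    norm_num at hpi2
    have := (abs_le.1 q3).2
    linarith
  have hOm1 : |Om s.im - ω| ≤ 1 / 2 := by
    rw [hω]
    unfold Om
    have h1 : Real.log T ≤ Real.log s.im := Real.log_le_log hTpos hs1.le
    have h2 : Real.log s.im ≤ Real.log 2 + Real.log T := by
      rw [← Real.log_mul (by norm_num) hTpos.ne']
      exact Real.log_le_log (by linarith) hs2
    have h3 := Real.log_two_lt_d9
    norm_num at h3
    rw [abs_le]
    constructor <;> linarith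
  have hg4e : g * 4 ≤ 4 * e := by
    have h1 : g * (4 / e) ≤ g * ω := mul_le_mul_of_nonneg_left hωe4 hg0.le
    have h2 : g * (4 / e) ≤ 4 := h1.trans hgω
    have h3 : g * (4 / e) * e = g * 4 := by field_simp
    have h4 := mul_le_mul_of_nonneg_right h2 he0.le
    linarith
  have e2 : g * Om s.im - Real.pi = (g * ω - Real.pi) + g * (Om s.im - ω) := by ring
  rw [e2]
  refine (abs_add_le _ _).trans ?_
  rw [abs_mul, abs_of_pos hg0]
  have h5 : g * |Om s.im - ω| ≤ g * (1 / 2) := mul_le_mul_of_nonneg_left hOm1 hg0.le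
  linarith

end Pool.Agent.R838.CR
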