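import Pool.Agent.R838.LD.Hdy
import Pool.Agent.R838.CR.Finp

set_option autoImplicit false

/-!
# Zeros of the heat flow of completed L-functions which are not regular

`hd_of` is part of the proof of `Pool.Agent.R838.LD.hdy`.
-/

namespace Pool.Agent.R838.CR

open Complex Filter Topology MeasureTheory Set Polynomial
open scoped ComplexConjugate
open Pool.Agent.R838.LD
open Pool.Agent.H24R2.JP (Om)
open Pool.Agent.H24R2.DZ (ra NN)
open Pool.Agent.Y671.LD (badH FarOK)
open Pool.Agent.Y671.GL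
open Pool.Agent.Y693.GL (GY good_scaleY)
open Pool.Agent.W169.HF (heat Slow)

theorem hd_of (κ : ℝ) (H X Z : ℂ → ℂ) (hκ : 1 / 2 ≤ κ) (hG : GY κ H X Z)
    (hst : ∀ s : ℂ, X s = 0 → |s.re| ≤ 1 / 2) (hH : HugeX X) :
    (∃ (F : ℂ → ℂ) (hh : ℝ → ℝ), HD κ F (FTx (2 * κ) X) hh) ∧
    (∀ τ : ℝ, 0 ≤ τ → Differentiable ℂ (heat τ X)) ∧
    (∀ T1 : ℝ, ∃ C : ℝ, ∀ τ : ℝ, 0 ≤ τ → τ ≤ 1 / 8 → ∀ S : Finset ℂ,
      (∀ s ∈ S, |s.im| ≤ T1 ∧ heat τ X s = 0) →
      ∑ s ∈ S, (analyticOrderNatAt (heat τ X) s : ℝ) ≤ C) := by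
  have hsz := Pool.Agent.Y412.GL.HSZ.hsz
  have hht := Pool.Agent.Y275.GL.hht
  have hκ0 : 0 < κ := by linarith
  have hC := hG.cg.cf
  have hXd := hC.diff
  obtain ⟨b, hb2⟩ : ∃ b : ℝ, b = 2 * κ := ⟨_, rfl⟩
  have hb : 0 < b := by rw [hb2]; positivity
  have hb1 : 1 ≤ b := by rw [hb2]; linarith
  have hbc : (b : ℂ) ≠ 0 := by exact_mod_cast hb.ne'
  obtain ⟨F, hF⟩ : ∃ F : ℂ → ℂ, F = fun z => X (z / (2 * κ : ℝ)) := ⟨_, rfl⟩
  have hFb : F = fun z => X (z / (b : ℂ)) := by rw [hF, hb2]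
  have hFd : Differentiable ℂ F := by rw [hFb]; exact hXd.comp (by fun_prop)
  obtain ⟨hh, hhd⟩ : ∃ hh : ℝ → ℝ, hh = (fun t : ℝ => if 0 < ‖H (I * t / (2 * κ))‖ then
    ‖H (I * t / (2 * κ))‖ else 1) := ⟨_, rfl⟩
  obtain ⟨h1, h2, h3, h4, h5, h6, h7⟩ := hsz κ H X Z hκ hG.cg F hh (by rw [hF]; push_cast; rfl) hhd
  obtain ⟨K, hK, hslow⟩ := hG.cg.slow
  obtain ⟨X0, T0, hX0, hT0, hhuge⟩ := hH
  have hne : ∃ z, X z ≠ 0 := by
    obtain ⟨K1, T1, hT1, h6'⟩ := h6 (10 * κ)
    have h8 := (h6' T1 ((10 * κ : ℝ) : ℂ) le_rfl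
      (by rw [Complex.norm_real, Real.norm_eq_abs, abs_of_pos (by positivity)])
      (by rw [Complex.ofReal_re])).1
    rw [hFb] at h8
    exact ⟨_, h8⟩
  obtain ⟨g0, gd, gi, gs, gc⟩ := hht X (slow_of hXd hK hslow) hC.symm hne hst
  have hHD : HD κ F (FTx b X) hh := by
    refine ⟨hκ, hFd, ?_, h1, h2, h3, h4, h5, h6, ?_, ?_, ?_, ?_, ?_, ?_, ?_, ?_⟩
    · intro z
      rw [hF]
      exact symm_scale hC.symm z
    · funext z
      show heat (0 / b ^ 2) X (z / b) = F z
      rw [zero_div, g0, hFb]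
    · intro τ hτ
      have h8 := gd (τ / b ^ 2) (by positivity)
      have h9 : FTx b X τ = heat (τ / b ^ 2) X ∘ (fun z : ℂ => z / (b : ℂ)) := rfl
      rw [h9]
      exact h8.comp (by fun_prop)
    · intro τ z hτ
      have h8 := gi (τ / b ^ 2) (z / b) (by positivity)
      have h9 : (fun v : ℝ => ((Real.exp (-v ^ 2) : ℝ) : ℂ) * F (z + ((2 * Real.sqrt τ * v : ℝ) : ℂ))) =
          fun v : ℝ => ((Real.exp (-v ^ 2) : ℝ) : ℂ) *
            X (z / b + ((2 * Real.sqrt (τ / b ^ 2) * v : ℝ) : ℂ)) := by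
        funext v
        rw [hFb]
        simp only
        rw [int_eq hb τ hτ]
      rw [h9]
      exact ⟨h8, rfl⟩
    · intro τ s hτ hs
      have h8 := gs (τ / b ^ 2) (s / b) (by positivity) hs
      rw [Complex.div_ofReal_re, abs_div, abs_of_pos hb, div_le_iff₀ hb] at h8
      rw [hb2] at h8
      linarith
    · refine ⟨2 * b ^ 2 * X0, max (b * T0) (b ^ 2), ?_, ?_, ?_⟩
      · nlinarith
      · refine le_trans ?_ (le_max_left _ _)
        nlinarith
      intro t τ s ht hτ hτ8 hX hs hbad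
      have ht1 : b * T0 ≤ t := (le_max_left _ _).trans ht
      have ht2 : b ^ 2 ≤ t := (le_max_right _ _).trans ht
      have htp : 0 < t := lt_of_lt_of_le (by positivity) ht1
      have hlt : 2 * Real.log b ≤ Real.log t := by
        have := Real.log_le_log (by positivity) ht2
        rw [Real.log_pow] at this
        exact_mod_cast this
      have hb21 : 1 ≤ b ^ 2 := by nlinarith
      rw [badH_scale hb s (gd _ (by positivity))] at hbad
      refine hhuge (t / b) (τ / b ^ 2) (s / b) ?_ (by positivity) ?_ ?_ ?_ hbad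
      · rw [le_div_iff₀ hb]; linarith
      · rw [div_le_iff₀ (by positivity)]; nlinarith
      · rw [Real.log_div htp.ne' hb.ne']
        have h8 : Om t = Real.log t / 2 := rfl
        rw [h8] at hX
        have h9 : τ * Real.log t / 2 ≤ τ * (Real.log t - Real.log b) := by nlinarith
        rw [div_mul_eq_mul_div, le_div_iff₀ (by positivity)]
        linarith
      · rw [Complex.div_ofReal_im, hs]
    · intro T1
      obtain ⟨C, hCl⟩ := gc |T1|
      refine ⟨C, ?_⟩
      intro τ hτ hτ8 S hS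
      classical
      have hb21 : 1 ≤ b ^ 2 := by nlinarith
      have h8 := hCl (τ / b ^ 2) (by positivity) (by rw [div_le_iff₀ (by positivity)]; nlinarith)
        (S.image (fun s => s / (b : ℂ))) (by
          intro w hw
          rw [Finset.mem_image] at hw
          obtain ⟨s, hs, rfl⟩ := hw
          obtain ⟨k1, k2⟩ := hS s hs
          refine ⟨?_, k2⟩
          rw [Complex.div_ofReal_im, abs_div, abs_of_pos hb]
          exact (div_le_self (abs_nonneg _) hb1).trans (k1.trans (le_abs_self _)))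
      rw [Finset.sum_image (by
        intro x _ y _ hxy
        exact (div_left_inj' hbc).1 hxy)] at h8
      refine le_trans (le_of_eq ?_) h8
      refine Finset.sum_congr rfl ?_
      intro s _
      have h9 := order_scale hb (gd (τ / b ^ 2) (by positivity)) (s / b)
      rw [mul_div_cancel₀ _ hbc] at h9
      exact_mod_cast h9
    · rw [hF]
      exact good_scaleY hκ hG.good
    · rw [hF]
      exact top_scale hXd hκ hG.top
  refine ⟨⟨F, hh, ?_⟩, gd, gc⟩
  rw [← hb2]
  exact hHD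

/-- `s` is a simple zero of `Y` on the line `Re = a`, and the next zero is again simple and on the line, at the
distance `(π + O(ε)) / (κ log (Im s))`. -/
def regX (Y : ℂ → ℂ) (κ ε a : ℝ) (s : ℂ) : Prop :=
  s.re = a ∧ deriv Y s ≠ 0 ∧ ∃ g : ℝ, 0 < g ∧ |g * (κ * Real.log s.im) - Real.pi| ≤ ε ∧
    Y (s + g * I) = 0 ∧ deriv Y (s + g * I) ≠ 0 ∧
    ∀ z : ℂ, Y z = 0 → s.im ≤ z.im → z.im ≤ s.im + g → z = s ∨ z = s + g * I

lemma reg_scale {X : ℂ → ℂ} {κ b τ ε : ℝ} {s : ℂ} (hκ : 1 / 2 ≤ κ) (hb2 : b = 2 * κ)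
    (hd : Differentiable ℂ (heat τ X)) (hε : 0 < ε) (hε1 : ε ≤ 1) (hs1 : 1 < s.im)
    (hs2 : 8 * Real.log b / ε ≤ Real.log s.im)
    (h : regH (FTx b X) (ε / 2) (τ * b ^ 2) ((b : ℂ) * s)) : regX (heat τ X) κ ε 0 s := by
  have hκ0 : 0 < κ := by linarith
  have hb : 0 < b := by rw [hb2]; positivity
  have hb1 : 1 ≤ b := by rw [hb2]; linarith
  have hbc : (b : ℂ) ≠ 0 := by exact_mod_cast hb.ne'
  have e0 : τ * b ^ 2 / b ^ 2 = τ := by field_simp
  have hFT : ∀ z : ℂ, FTx b X (τ * b ^ 2) z = heat τ X (z / b) := by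
    intro z
    unfold FTx
    rw [e0]
  have hFTd : ∀ w : ℂ, deriv (FTx b X (τ * b ^ 2)) ((b : ℂ) * w) = deriv (heat τ X) w / b := by
    intro w
    have h6 : HasDerivAt (fun z : ℂ => z / (b : ℂ)) (1 / b) ((b : ℂ) * w) :=
      (hasDerivAt_id _).div_const (b : ℂ)
    have h7 := (hd (((b : ℂ) * w) / b)).hasDerivAt.comp ((b : ℂ) * w) h6
    have h8 : FTx b X (τ * b ^ 2) = heat τ X ∘ (fun z : ℂ => z / (b : ℂ)) := by
      funext z
      exact hFT z
    rw [h8, h7.deriv, mul_div_cancel_left₀ _ hbc]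
    ring
  have him : ((b : ℂ) * s).im = b * s.im := Complex.im_ofReal_mul b s
  have hre : ((b : ℂ) * s).re = b * s.re := Complex.re_ofReal_mul b s
  obtain ⟨h1, h2, g', h3, h4, h5, h6, h7⟩ := h
  rw [hre] at h1
  rw [him] at h4
  rw [hFTd] at h2
  obtain ⟨g, hg⟩ : ∃ g : ℝ, g = g' / b := ⟨_, rfl⟩
  have hg' : g' = b * g := by rw [hg]; field_simp
  have hg0 : 0 < g := by rw [hg]; positivity
  have hsg : (b : ℂ) * s + (g' : ℂ) * I = (b : ℂ) * (s + g * I) := by
    rw [hg']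
    push_cast
    ring
  rw [hsg, hFT, mul_div_cancel_left₀ _ hbc] at h5
  rw [hsg, hFTd] at h6
  have hl : 0 < Real.log s.im := Real.log_pos hs1
  have hlb : 0 ≤ Real.log b := Real.log_nonneg hb1
  have hOm : g' * Om (b * s.im) = g * κ * Real.log b + g * (κ * Real.log s.im) := by
    unfold Om
    rw [Real.log_mul hb.ne' (by linarith), hg', hb2]
    ring
  rw [hOm] at h4
  have hpi2 := Real.pi_lt_d2
  norm_num at hpi2
  have h4' := (abs_le.1 h4).2
  have hgκ : 0 ≤ g * κ := by positivity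
  have h8 : g * κ * Real.log s.im ≤ 4 := by
    have : 0 ≤ g * κ * Real.log b := by positivity
    nlinarith
  have h9 : g * κ * Real.log b ≤ ε / 2 := by
    rw [div_le_iff₀ hε] at hs2
    have h10 : g * κ * (8 * Real.log b) ≤ g * κ * (Real.log s.im * ε) := mul_le_mul_of_nonneg_left hs2 hgκ
    have h11 : g * κ * Real.log s.im * ε ≤ 4 * ε := mul_le_mul_of_nonneg_right h8 hε.le
    nlinarith
  refine ⟨?_, ?_, g, hg0, ?_, h5, ?_, ?_⟩
  · rcases mul_eq_zero.1 h1 with h | h
    · exact absurd h hb.ne'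
    · exact h
  · intro h
    rw [h, zero_div] at h2
    exact h2 rfl
  · have e1 : g * (κ * Real.log s.im) - Real.pi =
        (g * κ * Real.log b + g * (κ * Real.log s.im) - Real.pi) - g * κ * Real.log b := by ring
    rw [e1]
    refine (abs_sub _ _).trans ?_
    have h10 : |g * κ * Real.log b| ≤ ε / 2 := by
      rw [abs_of_nonneg (by positivity)]
      exact h9
    linarith
  · intro h
    rw [h, zero_div] at h6
    exact h6 rfl
  · intro z hz hz1 hz2
    have h10 := h7 ((b : ℂ) * z) (by rw [hFT, mul_div_cancel_left₀ _ hbc]; exact hz)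
      (by
        rw [him, Complex.im_ofReal_mul]
        exact mul_le_mul_of_nonneg_left hz1 hb.le)
      (by
        rw [him, Complex.im_ofReal_mul, hg']
        have := mul_le_mul_of_nonneg_left hz2 hb.le
        linarith)
    rcases h10 with h10 | h10
    · left
      exact mul_left_cancel₀ hbc h10
    · right
      rw [hsg] at h10
      exact mul_left_cancel₀ hbc h10

/-- **The zeros of the heat flow which are not regular.** -/
theorem hdyp (κ : ℝ) (H X Z : ℂ → ℂ) (hκ : 1 / 2 ≤ κ) (hG : GY κ H X Z)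
    (hst : ∀ s : ℂ, X s = 0 → |s.re| ≤ 1 / 2) (hH : HugeX X) (ε A : ℝ) (hε : 0 < ε) :
    ∃ c C : ℝ, 0 < c ∧ 0 < C ∧ ∀ (T τ : ℝ), 2 ≤ T → 0 < τ → τ ≤ 1 / 8 → τ * Real.log T ≤ A →
      ∀ S : Finset ℂ, (∀ s ∈ S, (heat τ X s = 0 ∧ ¬ regX (heat τ X) κ ε 0 s) ∧ T < s.im ∧ s.im ≤ 2 * T) →
      ∑ s ∈ S, (analyticOrderNatAt (heat τ X) s : ℝ) ≤
        C * T * Real.log T * Real.exp (-(c * τ * Real.log T ^ 2)) := by
  obtain ⟨⟨F, hh, hHD⟩, gd, gc⟩ := hd_of κ H X Z hκ hG hst hH
  have hκ0 : 0 < κ := by linarith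
  obtain ⟨b, hb2⟩ : ∃ b : ℝ, b = 2 * κ := ⟨_, rfl⟩
  rw [← hb2] at hHD
  have hb : 0 < b := by rw [hb2]; positivity
  have hb1 : 1 ≤ b := by rw [hb2]; linarith
  have hbc : (b : ℂ) ≠ 0 := by exact_mod_cast hb.ne'
  have hlog0 : 0 ≤ Real.log b := Real.log_nonneg hb1
  obtain ⟨e, he⟩ : ∃ e : ℝ, e = min ε 1 := ⟨_, rfl⟩
  have he0 : 0 < e := by rw [he]; exact lt_min hε one_pos
  have he1 : e ≤ 1 := by rw [he]; exact min_le_right _ _
  have heε : e ≤ ε := by rw [he]; exact min_le_left _ _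
  obtain ⟨A1, hA1⟩ : ∃ A1 : ℝ, A1 = max A 0 := ⟨_, rfl⟩
  have hA10 : 0 ≤ A1 := by rw [hA1]; exact le_max_right _ _
  have hAA1 : A ≤ A1 := by rw [hA1]; exact le_max_left _ _
  obtain ⟨c, C, hc, hCp, hfin⟩ := fin_irr (ins_of hHD) (e / 2) (A1 * b ^ 2 * (1 + 2 * Real.log b)) (by positivity)
  obtain ⟨T1, hT1⟩ : ∃ T1 : ℝ, T1 = max (Real.exp (8 * Real.log b / e)) (Real.exp (8 * b ^ 2 * A1)) := ⟨_, rfl⟩
  obtain ⟨C1, hC1⟩ := gc (2 * T1)
  obtain ⟨C2, hC2⟩ : ∃ C2 : ℝ, C2 = |C1| * Real.exp (c * Real.log T1 ^ 2) := ⟨_, rfl⟩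
  have hC2p : 0 ≤ C2 := by rw [hC2]; positivity
  refine ⟨c, C * b * (1 + 2 * Real.log b) + C2, hc, by positivity, ?_⟩
  intro T τ hT hτ hτ8 hτA S hS
  have hTp : 0 < T := by linarith
  have hlT : 1 / 2 ≤ Real.log T := by
    have h3 : Real.log 2 ≤ Real.log T := Real.log_le_log (by norm_num) hT
    have := Real.log_two_gt_d9
    linarith
  rcases le_or_gt T1 T with hTT | hTT
  · classical
    have hT1a : Real.exp (8 * Real.log b / e) ≤ T := by
      refine le_trans ?_ hTT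
      rw [hT1]; exact le_max_left _ _
    have hT1b : Real.exp (8 * b ^ 2 * A1) ≤ T := by
      refine le_trans ?_ hTT
      rw [hT1]; exact le_max_right _ _
    have hlTb : 8 * b ^ 2 * A1 ≤ Real.log T := by
      rw [Real.le_log_iff_exp_le hTp]; exact hT1b
    have hlTa : 8 * Real.log b / e ≤ Real.log T := by
      rw [Real.le_log_iff_exp_le hTp]; exact hT1a
    have hτb : τ * b ^ 2 ≤ 1 / 8 := by
      by_contra hcon
      push Not at hcon
      rcases hA10.eq_or_lt with h0 | h0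
      · have : 0 < τ * Real.log T := mul_pos hτ (by linarith)
        linarith
      · have h1 : τ * (8 * b ^ 2 * A1) ≤ τ * Real.log T := mul_le_mul_of_nonneg_left hlTb hτ.le
        have h2 : 1 * A1 < (8 * (τ * b ^ 2)) * A1 := mul_lt_mul_of_pos_right (by linarith) h0
        linarith
    have e0 : τ * b ^ 2 / b ^ 2 = τ := by field_simp
    have h10 : Real.log (b * T) ≤ (1 + 2 * Real.log b) * Real.log T := by
      rw [Real.log_mul hb.ne' hTp.ne']
      nlinarith
    have h8 := hfin (b * T) (τ * b ^ 2) (by nlinarith) (by positivity) hτb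
      (by
        have h1 : (τ * b ^ 2) * Real.log (b * T) ≤ (τ * b ^ 2) * ((1 + 2 * Real.log b) * Real.log T) :=
          mul_le_mul_of_nonneg_left h10 (by positivity)
        have h2 : (τ * Real.log T) * (b ^ 2 * (1 + 2 * Real.log b)) ≤ A1 * (b ^ 2 * (1 + 2 * Real.log b)) :=
          mul_le_mul_of_nonneg_right (hτA.trans hAA1) (by positivity)
        linarith)
      (S.image (fun s => (b : ℂ) * s)) (by
        intro s hs
        rw [Finset.mem_image] at hs
        obtain ⟨w, hw, rfl⟩ := hs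
        obtain ⟨⟨k1, k1'⟩, k2, k3⟩ := hS w hw
        refine ⟨⟨?_, ?_⟩, ?_, ?_⟩
        · show FTx b X (τ * b ^ 2) ((b : ℂ) * w) = 0
          unfold FTx
          rw [mul_div_cancel_left₀ _ hbc, e0]
          exact k1
        · intro hreg
          apply k1'
          have h11 : 8 * Real.log b / e ≤ Real.log w.im := hlTa.trans (Real.log_le_log hTp k2.le)
          obtain ⟨m1, m2, g, m3, m4, m5, m6, m7⟩ :=
            reg_scale hκ hb2 (gd τ hτ.le) he0 he1 (by linarith) h11 hreg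
          exact ⟨m1, m2, g, m3, m4.trans heε, m5, m6, m7⟩
        · rw [Complex.im_ofReal_mul]
          gcongr
        · rw [Complex.im_ofReal_mul, ← mul_assoc, mul_comm 2 b, mul_assoc]
          gcongr)
    rw [Finset.sum_image (by
      intro x _ y _ hxy
      exact mul_left_cancel₀ hbc hxy)] at h8
    have h9 : ∀ s ∈ S, (analyticOrderNatAt (heat τ X) s : ℝ) =
        (analyticOrderNatAt (FTx b X (τ * b ^ 2)) ((b : ℂ) * s) : ℝ) := by
      intro s _
      have e1 := order_scale hb (gd τ hτ.le) s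
      have e2 : FTx b X (τ * b ^ 2) = fun z => heat τ X (z / (b : ℂ)) := by
        funext z
        unfold FTx
        rw [e0]
      rw [e2]
      exact_mod_cast e1.symm
    rw [Finset.sum_congr rfl h9]
    refine h8.trans ?_
    have h11 : Real.log T ≤ Real.log (b * T) := by
      apply Real.log_le_log hTp
      nlinarith
    have h12 : Real.exp (-(c * (τ * b ^ 2) * Real.log (b * T) ^ 2)) ≤
        Real.exp (-(c * τ * Real.log T ^ 2)) := by
      apply Real.exp_le_exp.2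
      have h13 : Real.log T ^ 2 ≤ Real.log (b * T) ^ 2 := by gcongr
      have h14 : 1 ≤ b ^ 2 := by nlinarith
      have h15 : c * τ * Real.log T ^ 2 ≤ c * (τ * b ^ 2) * Real.log (b * T) ^ 2 := by
        have : τ ≤ τ * b ^ 2 := by nlinarith
        gcongr
      linarith
    have h16 : 0 ≤ C2 * T * Real.log T * Real.exp (-(c * τ * Real.log T ^ 2)) := by positivity
    calc C * (b * T) * Real.log (b * T) * Real.exp (-(c * (τ * b ^ 2) * Real.log (b * T) ^ 2))
        ≤ C * (b * T) * ((1 + 2 * Real.log b) * Real.log T) * Real.exp (-(c * τ * Real.log T ^ 2)) := by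
          gcongr
      _ = C * b * (1 + 2 * Real.log b) * T * Real.log T * Real.exp (-(c * τ * Real.log T ^ 2)) := by ring
      _ ≤ _ := by linarith
  · have h16 : 0 ≤ C * b * (1 + 2 * Real.log b) * T * Real.log T * Real.exp (-(c * τ * Real.log T ^ 2)) := by
      positivity
    have h17 := hC1 τ hτ.le hτ8 S (by
      intro s hs
      obtain ⟨k1, k2, k3⟩ := hS s hs
      refine ⟨?_, k1.1⟩
      rw [abs_of_pos (by linarith)]
      linarith)
    have h18 : (1 : ℝ) ≤ T * Real.log T := by nlinarith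
    have h19 : Real.exp (-(c * Real.log T1 ^ 2)) ≤ Real.exp (-(c * τ * Real.log T ^ 2)) := by
      apply Real.exp_le_exp.2
      have h20 : Real.log T ≤ Real.log T1 := Real.log_le_log hTp hTT.le
      have h21 : Real.log T ^ 2 ≤ Real.log T1 ^ 2 := by gcongr
      have h22 : c * τ * Real.log T ^ 2 ≤ c * 1 * Real.log T1 ^ 2 := by
        have : τ ≤ 1 := by linarith
        gcongr
      linarith
    have h20 : |C1| ≤ C2 * (T * Real.log T) * Real.exp (-(c * τ * Real.log T ^ 2)) := by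
      have h21 : |C1| = C2 * 1 * Real.exp (-(c * Real.log T1 ^ 2)) := by
        rw [hC2, mul_one, mul_assoc, ← Real.exp_add]
        simp
      rw [h21]
      gcongr
    have h22 := le_abs_self C1
    nlinarith

end Pool.Agent.R838.CR
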