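import Pool.Agent.R838.LD.SpecH

set_option autoImplicit false

/-!
# The hypotheses of the theorem on regular zeros, for one function and its heat flow
-/

namespace Pool.Agent.R838.CR

open Complex Filter Topology MeasureTheory Set
open Pool.Agent.Y671.LD (badH FarOK LocH TopOK)
open Pool.Agent.H24R2.JP (Om)
open Pool.Agent.H24R2.DZ (ra NN)
open Pool.Agent.W186.SD (UU NG Grow Std)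

/-- the heat flow in local coordinates -/
def RELI (F : ℂ → ℂ) (FT : ℝ → ℂ → ℂ) : Prop :=
  ∀ (τ r t0 : ℝ) (z : ℂ), 0 < τ → 0 < r → FT τ (I * t0 + r * z) =
    ((r / (2 * Real.sqrt (Real.pi * τ)) : ℝ) : ℂ) * UU (r ^ 2 / (4 * τ)) (fun z => F (I * t0 + r * z)) z

/-- the local situation at the fixed scale `r` -/
def UNGI (F : ℂ → ℂ) : Prop :=
  ∀ δ c X : ℝ, 0 < δ → δ ≤ 1 / 2 → 0 < c → c ≤ X → ∀ η' : ℝ, 0 < η' →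
  ∃ R η T0 : ℝ, 1 ≤ R ∧ 0 < η ∧ 2 ≤ T0 ∧
  ∀ t r g : ℝ, T0 ≤ t → c ≤ r → r ≤ X → 2 * r ^ 2 ≤ g → FarOK F R (δ * min c 1 / 10) η t →
    NG δ (r * Om t) g η' (fun z => F (I * t + r * z))

/-- no bad zeros at height `t` if `2 τ Om t` is in a fixed range and `FarOK` -/
def BIGMI (F : ℂ → ℂ) (FT : ℝ → ℂ → ℂ) : Prop :=
  ∀ c X : ℝ, 0 < c → c ≤ X → ∃ R ε0 η T0 : ℝ, 1 ≤ R ∧ 0 < ε0 ∧ 0 < η ∧ 2 ≤ T0 ∧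
  ∀ (t t' τ : ℝ) (s : ℂ), T0 ≤ t → |t - t'| ≤ 1 → 0 < τ → c ≤ 2 * τ * Om t → 2 * τ * Om t ≤ X →
    FarOK F R ε0 η t' → s.im = t → ¬ badH FT τ s

/-- zeros in unit windows -/
def UNITI (FT : ℝ → ℂ → ℂ) : Prop :=
  ∀ X : ℝ, 0 < X → ∃ C T0 : ℝ, 0 < C ∧ 2 ≤ T0 ∧ ∀ t τ : ℝ, T0 ≤ t → 0 < τ →
  2 * τ * Om t ≤ X → ∀ S : Finset ℂ, (∀ s ∈ S, |s.im - t| ≤ 1 ∧ FT τ s = 0) →
  ∑ s ∈ S, (analyticOrderNatAt (FT τ) s : ℝ) ≤ C * Real.log t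

/-- growth at all scales -/
def GROWI (F : ℂ → ℂ) : Prop :=
  ∃ R η c0 T0 : ℝ, 1 ≤ R ∧ 0 < η ∧ 0 < c0 ∧ 2 ≤ T0 ∧
  ∀ (T τ a t t' : ℝ) (J j : ℕ), T0 ≤ T → 1 ≤ a → Std c0 T τ a J → T / 2 ≤ t → t ≤ 3 * T → j ≤ J →
    LocH F η T a j J t → TopOK F R η t → |t - t'| ≤ ra T (2 ^ j * a) / 100 →
    NN (2 ^ j * a) η (fun z => F (I * t' + ra T (2 ^ j * a) * z)) →
    Grow (2 ^ j * a) (ra T (2 ^ j * a) ^ 2 / (4 * τ)) (fun z => F (I * t' + ra T (2 ^ j * a) * z))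

/-- location of the zeros -/
def PTI (F : ℂ → ℂ) (FT : ℝ → ℂ → ℂ) : Prop :=
  ∃ R η c0 a0 T0 : ℝ, 1 ≤ R ∧ 0 < η ∧ 0 < c0 ∧ 1 ≤ a0 ∧ 2 ≤ T0 ∧
  ∀ (T τ a : ℝ) (J j : ℕ) (s : ℂ), T0 ≤ T → a0 ≤ a → Std c0 T τ a J → T / 2 ≤ s.im → s.im ≤ 3 * T → j ≤ J →
    LocH F η T a j J s.im → TopOK F R η s.im → FT τ s = 0 →
    |s.re| ≤ ra T (2 ^ j * a) / 2 ∧ (j = 0 → ¬ badH FT τ s)

/-- the number of zeros near a good point -/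
def CNXI (F : ℂ → ℂ) (FT : ℝ → ℂ → ℂ) : Prop :=
  ∃ R η c0 a0 C T0 : ℝ, 1 ≤ R ∧ 0 < η ∧ 0 < c0 ∧ 1 ≤ a0 ∧ 0 < C ∧ 2 ≤ T0 ∧
  ∀ (T τ a t : ℝ) (J j : ℕ), T0 ≤ T → a0 ≤ a → Std c0 T τ a J → T / 2 ≤ t → t ≤ 3 * T → j ≤ J →
    LocH F η T a j J t → TopOK F R η t → ∀ S : Finset ℂ,
    (∀ s ∈ S, |s.re| ≤ ra T (2 ^ j * a) ∧ |s.im - t| ≤ ra T (2 ^ j * a) ∧ FT τ s = 0) →
    ∑ s ∈ S, (analyticOrderNatAt (FT τ) s : ℝ) ≤ C * (2 ^ j * a)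

/-- most points are good at all scales -/
def GOODI (F : ℂ → ℂ) : Prop :=
  ∀ η : ℝ, 0 < η → ∃ c C a0 T0 : ℝ, 0 < c ∧ 0 < C ∧ 1 ≤ a0 ∧ 2 ≤ T0 ∧ ∀ T a : ℝ, T0 ≤ T → a0 ≤ a →
    a ≤ Real.log T / 200 → volume {t0 : ℝ | T / 2 ≤ t0 ∧ t0 ≤ 3 * T ∧
      ¬ NN a η (fun z => F (I * t0 + ra T a * z))} ≤ ENNReal.ofReal (C * T * Real.exp (-(c * a)))

/-- the top scale -/
def TOPI (F : ℂ → ℂ) : Prop :=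
  ∀ R ε0 η : ℝ, 1 ≤ R → 0 < ε0 → 0 < η → ∃ c C T0 : ℝ, 0 < c ∧ 0 < C ∧ 2 ≤ T0 ∧
    ∀ T : ℝ, T0 ≤ T → volume {t : ℝ | T / 2 ≤ t ∧ t ≤ 3 * T ∧ ¬ FarOK F R ε0 η t} ≤
      ENNReal.ofReal (C * T ^ (1 - c))

/-- zeros up to a fixed height -/
def LOWCI (FT : ℝ → ℂ → ℂ) : Prop :=
  ∀ T1 : ℝ, ∃ C : ℝ, ∀ τ : ℝ, 0 ≤ τ → τ ≤ 1 / 8 → ∀ S : Finset ℂ,
    (∀ s ∈ S, |s.im| ≤ T1 ∧ FT τ s = 0) → ∑ s ∈ S, (analyticOrderNatAt (FT τ) s : ℝ) ≤ C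

/-- All hypotheses. -/
structure INS (F : ℂ → ℂ) (FT : ℝ → ℂ → ℂ) : Prop where
  rel : RELI F FT
  ung : UNGI F
  bigm : BIGMI F FT
  unit : UNITI FT
  grow : GROWI F
  pt : PTI F FT
  cnx : CNXI F FT
  good : GOODI F
  top : TOPI F
  lowc : LOWCI FT

end Pool.Agent.R838.CR
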