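import Pool.Agent.W366.SDNL

set_option autoImplicit false

/-!
# Laplace's method with small errors

Variants of lemmas of the starting files `Pool.Agent.W366.SDNL2`, `SDNL3` (by helper366) with an arbitrary
constant `μ` instead of `1 / 1000`.
-/

namespace Pool.Agent.R838.CR

open Complex Filter Topology MeasureTheory Set
open Pool.Agent.W186.SD
open Pool.Agent.W186.HZ (Q Lc sad)
open Pool.Agent.W366.SDNL (bounds b1 b2 b3 b4 NN' tails shift Q_diff hump z0re z0im)

variable {F : ℂ → ℂ} {a s β y : ℝ}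

lemma numm {μ : ℝ} (hμ : 0 < μ) (hs : s ^ 2 = a) (hs0 : 1 ≤ s) (ha : 2 * 10 ^ 6 / μ ≤ a) :
    Real.exp (-(1 / 1000 * a)) ≤ μ / s := by
  have ha0 : 0 < a := by rw [← hs]; positivity
  have h1 := Real.quadratic_le_exp_of_nonneg (by positivity : 0 ≤ 1 / 1000 * a)
  have h3 : s ≤ a := by rw [← hs]; nlinarith
  have h4 : 2 * 10 ^ 6 ≤ μ * a := by
    rw [div_le_iff₀ hμ] at ha
    linarith
  have h5 : s ≤ μ * Real.exp (1 / 1000 * a) := by
    have h6 : μ * (1 + 1 / 1000 * a + (1 / 1000 * a) ^ 2 / 2) ≤ μ * Real.exp (1 / 1000 * a) :=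
      mul_le_mul_of_nonneg_left h1 hμ.le
    have h7 : 2 * 10 ^ 6 * a ≤ μ * a * a := mul_le_mul_of_nonneg_right h4 ha0.le
    have h8 : 0 < μ * a := by positivity
    nlinarith
  rw [Real.exp_neg, ← one_div, div_le_div_iff₀ (Real.exp_pos _) (by linarith)]
  linarith

/-- The bound for the integrand with the weight, away from the saddle point. -/
lemma wtm {μ : ℝ} (hs : s ^ 2 = a) (hs0 : 1 ≤ s) (ha : 10 ^ 9 ≤ a)
    (hnum : Real.exp (-(1 / 1000 * a)) ≤ μ / s) (hβ : |β| ≤ 1 / 2) (hy : |y| ≤ 1)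
    (h : NG (1 / 2) a (a / 2) (1 / 10 ^ 6) F) {w0 : ℂ} (h1 : |w0.re - 1 - β| ≤ 1 / 10 ^ 6)
    (h2 : |w0.im - y| ≤ 1 / 10 ^ 6) {w : ℂ}
    (h3 : (w.im = y ∧ 0 ≤ w.re) ∨ (1 / 20 ≤ w.re ∧ w.re ≤ 16 ∧ |w.im - y| ≤ 1 / 10 ^ 6))
    (h4 : 2 / 25 ≤ |w.re - w0.re|) :
    (1 + ‖w - w0‖) * ‖Q F s ((β : ℂ) + y * I) w‖ ≤
      μ / s * ‖Q F s ((β : ℂ) + y * I) w0‖ * Real.exp (-w.re) := by
  have ha0 : 0 ≤ a := by linarith
  have hN := b4 hs ha0 hβ hy h h1 h2
  have hβ' := abs_le.1 hβ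
  have h1' := abs_le.1 h1
  have h2' := abs_le.1 h2
  norm_num at h1' h2'
  have h5 : 799 / 10000 ≤ |w.re - 1 - β| := by
    have e : w.re - w0.re = (w.re - 1 - β) - (w0.re - 1 - β) := by ring
    have e2 := abs_sub (w.re - 1 - β) (w0.re - 1 - β)
    rw [← e] at e2
    norm_num at h1 ⊢
    linarith
  have hQ0 : 0 ≤ ‖Q F s ((β : ℂ) + y * I) w0‖ := norm_nonneg _
  have hNN0 : 0 ≤ NN' a β F := mul_nonneg (norm_nonneg _) (Real.exp_pos _).le
  -- it is enough to compare with `NN' * exp (-2a/1000)`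
  have hfin : ∀ X : ℝ, X ≤ NN' a β F * Real.exp (-(2 / 1000 * a)) * Real.exp (-w.re) →
      X ≤ μ / s * ‖Q F s ((β : ℂ) + y * I) w0‖ * Real.exp (-w.re) := by
    intro X hX
    refine hX.trans ?_
    apply mul_le_mul_of_nonneg_right _ (Real.exp_pos _).le
    calc NN' a β F * Real.exp (-(2 / 1000 * a))
        ≤ ‖Q F s ((β : ℂ) + y * I) w0‖ * Real.exp (1 / 10000 * a) * Real.exp (-(2 / 1000 * a)) :=
          mul_le_mul_of_nonneg_right hN (Real.exp_pos _).le
      _ = ‖Q F s ((β : ℂ) + y * I) w0‖ * Real.exp (-(19 / 10000 * a)) := by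
          rw [mul_assoc, ← Real.exp_add]
          congr 2
          ring
      _ ≤ ‖Q F s ((β : ℂ) + y * I) w0‖ * (μ / s) := by
          apply mul_le_mul_of_nonneg_left _ hQ0
          refine le_trans (Real.exp_le_exp.2 ?_) hnum
          linarith
      _ = _ := mul_comm _ _
  have hw0n : |w0.re| ≤ 2 ∧ |w0.im| ≤ 2 := by
    have hy' := abs_le.1 hy
    constructor
    · rw [abs_le]; constructor <;> linarith [h1'.1, h1'.2, hβ'.1, hβ'.2]
    · rw [abs_le]; constructor <;> linarith [h2'.1, h2'.2, hy'.1, hy'.2]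
  have hdist : ∀ R : ℝ, |w.re| ≤ R → |w.im| ≤ 2 → 1 + ‖w - w0‖ ≤ R + 7 := by
    intro R hR hi
    have e1 := Complex.norm_le_abs_re_add_abs_im (w - w0)
    rw [Complex.sub_re, Complex.sub_im] at e1
    have e2 := abs_sub w.re w0.re
    have e3 := abs_sub w.im w0.im
    linarith [hw0n.1, hw0n.2]
  have hwi : |w.im| ≤ 2 := by
    have h8 : |w.im - y| ≤ 1 := by
      rcases h3 with h3 | h3
      · rw [h3.1, sub_self, abs_zero]; norm_num
      · exact h3.2.2.trans (by norm_num)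
    have h7 : |w.im| ≤ |w.im - y| + |y| := by
      have := abs_add_le (w.im - y) y
      rwa [sub_add_cancel] at this
    linarith
  by_cases h16 : 16 < w.re
  · have h3' : w.im = y := by
      rcases h3 with h3 | h3
      · exact h3.1
      · linarith [h3.2.1]
    apply hfin
    have hb := b3 hs ha0 hβ hy h h16.le h3'
    have hd := hdist w.re (by rw [abs_of_pos (by linarith)]) hwi
    have hexp : w.re + 7 ≤ Real.exp (w.re + 6) := by
      have := Real.add_one_le_exp (w.re + 6)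
      linarith
    calc (1 + ‖w - w0‖) * ‖Q F s ((β : ℂ) + y * I) w‖
        ≤ Real.exp (w.re + 6) * (NN' a β F * Real.exp (-(a * w.re))) := by
          apply mul_le_mul (hd.trans hexp) hb (norm_nonneg _) (Real.exp_pos _).le
      _ = NN' a β F * Real.exp (w.re + 6 + -(a * w.re)) := by
          rw [Real.exp_add (w.re + 6)]; ring
      _ ≤ NN' a β F * Real.exp (-(2 / 1000 * a) + -w.re) := by
          apply mul_le_mul_of_nonneg_left (Real.exp_le_exp.2 ?_) hNN0
          nlinarith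
      _ = _ := by rw [Real.exp_add, mul_assoc]
  · push Not at h16
    have hre0 : 0 ≤ w.re := by
      rcases h3 with h3 | h3
      · exact h3.2
      · linarith [h3.1]
    have hb : ‖Q F s ((β : ℂ) + y * I) w‖ ≤ NN' a β F * Real.exp (-(3 / 1000 * a)) := by
      by_cases h20 : 1 / 20 ≤ w.re
      · refine b1 hs ha0 hβ hy h h20 h16 ?_ h5
        rcases h3 with h3 | h3
        · rw [h3.1, sub_self, abs_zero]; norm_num
        · exact h3.2.2
      · push Not at h20
        rcases h3 with h3 | h3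
        · exact b2 hs ha0 hβ hy h h3.2 h20.le h3.1
        · linarith [h3.1]
    apply hfin
    have hd := hdist 16 (by rw [abs_of_nonneg hre0]; exact h16) hwi
    have h23 : (16 + 7 : ℝ) ≤ Real.exp 22 := by
      have := Real.add_one_le_exp (22 : ℝ)
      linarith
    calc (1 + ‖w - w0‖) * ‖Q F s ((β : ℂ) + y * I) w‖
        ≤ Real.exp 22 * (NN' a β F * Real.exp (-(3 / 1000 * a))) := by
          apply mul_le_mul (hd.trans h23) hb (norm_nonneg _) (Real.exp_pos _).le
      _ = NN' a β F * Real.exp (22 + -(3 / 1000 * a)) := by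
          rw [Real.exp_add]; ring
      _ ≤ NN' a β F * Real.exp (-(2 / 1000 * a) + -w.re) := by
          apply mul_le_mul_of_nonneg_left (Real.exp_le_exp.2 ?_) hNN0
          linarith
      _ = _ := by rw [Real.exp_add, mul_assoc]

lemma bothm {μ : ℝ} (hμ : 0 ≤ μ) (hs : s ^ 2 = a) (hs0 : 1 ≤ s) (ha : 10 ^ 9 ≤ a)
    (hnum : Real.exp (-(1 / 1000 * a)) ≤ μ / s) (hβ : |β| ≤ 1 / 2) (hy : |y| ≤ 1)
    (h : NG (1 / 2) a (a / 2) (1 / 10 ^ 6) F) {w0 : ℂ} (h1 : |w0.re - 1 - β| ≤ 1 / 10 ^ 6)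
    (h2 : |w0.im - y| ≤ 1 / 10 ^ 6) (H : ℂ → ℂ) (hH : Differentiable ℂ H)
    (hbd : ∀ w, ‖H w‖ ≤ (1 + ‖w - w0‖) * ‖Q F s ((β : ℂ) + y * I) w‖)
    (hint : IntegrableOn (fun v : ℝ => H (v + y * I)) (Ioi 0)) :
    ‖(∫ v in Ioi (0 : ℝ), H (v + y * I)) - ∫ u in (-(2 / 25) : ℝ)..(2 / 25), H (w0 + u)‖ ≤
      3 * (μ / s * ‖Q F s ((β : ℂ) + y * I) w0‖) := by
  obtain ⟨M, hM⟩ : ∃ M : ℝ, M = μ / s * ‖Q F s ((β : ℂ) + y * I) w0‖ := ⟨_, rfl⟩
  have hs00 : 0 < s := by linarith
  have hM0 : 0 ≤ M := by rw [hM]; positivity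
  have hβ' := abs_le.1 hβ
  have h1' := abs_le.1 h1
  norm_num at h1'
  have hw1 : 49 / 100 ≤ w0.re := by linarith [h1'.1, hβ'.1]
  have hw2 : w0.re ≤ 151 / 100 := by linarith [h1'.2, hβ'.2]
  have t1 := tails (f := fun v : ℝ => H (v + y * I)) (A := w0.re - 2 / 25) (B := w0.re + 2 / 25)
    (M := M) hint (by linarith) (by linarith) hM0 (by
      intro r hr hrr
      have e1 : ((r : ℂ) + y * I).re = r := by simp
      have e2 : ((r : ℂ) + y * I).im = y := by simp
      have h3 := wtm hs hs0 ha hnum hβ hy h h1 h2 (w := (r : ℂ) + y * I)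
        (Or.inl ⟨e2, by rw [e1]; exact hr.le⟩) (by
          rw [e1]
          rcases hrr with hrr | hrr
          · rw [abs_sub_comm, abs_of_nonneg (by linarith)]; linarith
          · rw [abs_of_nonneg (by linarith)]; linarith)
      rw [e1, ← hM] at h3
      exact (hbd _).trans h3)
  have t2 := shift hH y (2 / 25) M w0 (by
      intro x η hx hη
      have e1 : ((x : ℂ) + η * I).re = x := by simp
      have e2 : ((x : ℂ) + η * I).im = η := by simp
      have hηy : |η - y| ≤ 1 / 10 ^ 6 := by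
        have := Set.abs_sub_left_of_mem_uIcc hη
        exact this.trans h2
      have hx1 : 1 / 20 ≤ x := by rcases hx with rfl | rfl <;> linarith
      have hx2 : x ≤ 16 := by rcases hx with rfl | rfl <;> linarith
      have h3 := wtm hs hs0 ha hnum hβ hy h h1 h2 (w := (x : ℂ) + η * I)
        (Or.inr ⟨by rw [e1]; exact hx1, by rw [e1]; exact hx2, by rw [e2]; exact hηy⟩) (by
          rw [e1]
          rcases hx with rfl | rfl
          · rw [sub_sub_cancel_left, abs_neg, abs_of_pos (by norm_num)]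
          · rw [add_sub_cancel_left, abs_of_pos (by norm_num)])
      rw [e1, ← hM] at h3
      refine ((hbd _).trans h3).trans ?_
      have : Real.exp (-x) ≤ 1 := by
        rw [Real.exp_le_one_iff]; linarith
      calc M * Real.exp (-x) ≤ M * 1 := mul_le_mul_of_nonneg_left this hM0
        _ = M := mul_one M)
    (h2.trans (by norm_num))
  have t3 := norm_add_le ((∫ v in Ioi (0 : ℝ), H (v + y * I)) -
      ∫ v in (w0.re - 2 / 25)..(w0.re + 2 / 25), H (v + y * I))
    ((∫ v in (w0.re - 2 / 25)..(w0.re + 2 / 25), H (v + y * I)) -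
      ∫ u in (-(2 / 25) : ℝ)..(2 / 25), H (w0 + u))
  rw [sub_add_sub_cancel] at t3
  rw [← hM]
  linarith

end Pool.Agent.R838.CR
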