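import Pool.Agent.R838.CR.Loc1

set_option autoImplicit false

/-!
# The half-line integral rotates with constant speed
-/

namespace Pool.Agent.R838.CR

open Complex Filter Topology MeasureTheory Set
open Pool.Agent.W186.SD
open Pool.Agent.W186.HZ (Q Lc sad)
open Pool.Agent.W366.SDNL (bounds b1 b2 b3 b4 NN' tails shift Q_diff hump z0re z0im seg kk Q_kk kk_int
  vkk_int uu_eq ud0)

/-- Rotation along a vertical segment. -/
lemma rot {F : ℂ → ℂ} (hd : Differentiable ℂ F) {a η : ℝ} {S : Set ℂ} (hS : Convex ℝ S)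
    (hF : ∀ z ∈ S, F z ≠ 0 ∧ ‖logDeriv F z - a‖ ≤ η * a) (ha : 0 ≤ a) (hη : 0 ≤ η) (hη1 : η ≤ 1 / 40)
    {z : ℂ} {h : ℝ} (h0 : 0 ≤ h) (hah : a * h ≤ 4) (hmem : ∀ t ∈ Icc (0 : ℝ) h, z + t * I ∈ S) :
    ‖F (z + h * I) - cexp (((a * h : ℝ) : ℂ) * I) * F z‖ ≤ 5 * η * ‖F z‖ ∧
      ‖F (z + h * I)‖ ≤ 5 / 4 * ‖F z‖ := by
  have hz0 : z ∈ S := by
    have := hmem 0 ⟨le_rfl, h0⟩
    simpa using this
  have hsz : ∀ t ∈ Icc (0 : ℝ) h, ‖F (z + t * I)‖ ≤ 5 / 4 * ‖F z‖ := by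
    intro t ht
    have h1 := seg hd hS hF hz0 (hmem t ht)
    have e1 : (z + t * I).re - z.re = 0 := by simp
    have e2 : ‖z + t * I - z‖ = t := by
      rw [add_sub_cancel_left, norm_mul, Complex.norm_I, mul_one, Complex.norm_real, Real.norm_eq_abs,
        abs_of_nonneg ht.1]
    rw [e1, e2] at h1
    refine h1.trans ?_
    rw [mul_comm]
    refine mul_le_mul_of_nonneg_right ?_ (norm_nonneg _)
    have h2 : a * 0 + η * a * t ≤ 1 / 10 := by
      have h3 : a * t ≤ 4 := (mul_le_mul_of_nonneg_left ht.2 ha).trans hah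
      have h4 : η * (a * t) ≤ 1 / 40 * 4 := mul_le_mul hη1 h3 (mul_nonneg ha ht.1) (by norm_num)
      linarith
    refine (Real.exp_le_exp.2 h2).trans ?_
    have := Real.exp_bound' (x := 1 / 10) (by norm_num) (by norm_num) (n := 2) (by norm_num)
    norm_num [Finset.sum_range_succ, Nat.factorial] at this ⊢
    linarith
  refine ⟨?_, hsz h ⟨h0, le_rfl⟩⟩
  obtain ⟨G, hG⟩ : ∃ G : ℝ → ℂ, G = fun t : ℝ => F (z + t * I) * cexp (-(a * (t * I))) := ⟨_, rfl⟩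
  have hder : ∀ t ∈ Icc (0 : ℝ) h, HasDerivAt G (I * (logDeriv F (z + t * I) - a) * G t) t := by
    intro t ht
    have h1 : HasDerivAt (fun t : ℝ => z + (t : ℂ) * I) I t := by
      have h := ((Complex.ofRealCLM.hasDerivAt (x := t)).mul_const I).const_add z
      simpa using h
    have h2 : HasDerivAt (fun t : ℝ => F (z + (t : ℂ) * I)) (deriv F (z + t * I) * I) t :=
      HasDerivAt.comp t (hd _).hasDerivAt h1
    have h3 : HasDerivAt (fun t : ℝ => -((a : ℂ) * ((t : ℂ) * I))) (-((a : ℂ) * I)) t := by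
      have h := ((Complex.ofRealCLM.hasDerivAt (x := t)).mul_const I).const_mul (-(a : ℂ))
      simpa [neg_mul] using h
    have h4 := h2.mul h3.cexp
    rw [hG]
    refine h4.congr_deriv ?_
    have hne := (hF _ (hmem t ht)).1
    rw [logDeriv_apply]
    field_simp
    ring
  have hGn : ∀ t : ℝ, ‖G t‖ = ‖F (z + t * I)‖ := by
    intro t
    rw [hG]
    simp only [norm_mul, Complex.norm_exp]
    simp
  have key := (convex_Icc (0 : ℝ) h).norm_image_sub_le_of_norm_hasDerivWithin_le (f := G)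
    (f' := fun t => I * (logDeriv F (z + t * I) - a) * G t) (C := η * a * (5 / 4 * ‖F z‖))
    (fun t ht => (hder t ht).hasDerivWithinAt) (fun t ht => by
      rw [norm_mul, norm_mul, Complex.norm_I, one_mul, hGn]
      exact mul_le_mul (hF _ (hmem t ht)).2 (hsz t ht) (norm_nonneg _) (by positivity))
    (x := 0) (y := h) ⟨le_rfl, h0⟩ ⟨h0, le_rfl⟩
  have e1 : F (z + h * I) - cexp (((a * h : ℝ) : ℂ) * I) * F z =
      cexp (((a * h : ℝ) : ℂ) * I) * (G h - G 0) := by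
    rw [hG]
    simp only [Complex.ofReal_zero, zero_mul, mul_zero, neg_zero, Complex.exp_zero, mul_one, add_zero]
    have e2 : cexp (((a * h : ℝ) : ℂ) * I) * cexp (-(a * (h * I))) = 1 := by
      rw [← Complex.exp_add]
      have : ((a * h : ℝ) : ℂ) * I + -((a : ℂ) * (h * I)) = 0 := by push_cast; ring
      rw [this, Complex.exp_zero]
    linear_combination (-F (z + h * I)) * e2
  rw [e1, norm_mul, Complex.norm_exp_ofReal_mul_I, one_mul]
  refine key.trans ?_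
  rw [sub_zero, Real.norm_eq_abs, abs_of_nonneg h0]
  have h5 : η * (a * h) ≤ η * 4 := mul_le_mul_of_nonneg_left hah hη
  have h6 : η * (a * h) * (5 / 4 * ‖F z‖) ≤ η * 4 * (5 / 4 * ‖F z‖) :=
    mul_le_mul_of_nonneg_right h5 (by positivity)
  linarith

/-- Gaussian integrals over segments. -/
lemma gint {c r : ℝ} (hc : 0 < c) (hr : 0 ≤ r) :
    ∫ u in (-r)..r, Real.exp (-c * u ^ 2) ≤ Real.sqrt (Real.pi / c) := by
  rw [← integral_gaussian c, intervalIntegral.integral_of_le (by linarith)]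
  exact setIntegral_le_integral (integrable_exp_neg_mul_sq hc)
    (Eventually.of_forall fun u => (Real.exp_pos _).le)

lemma g4 {s r : ℝ} (hs : 0 < s) (hr : 0 ≤ r) :
    ∫ u in (-r)..r, Real.exp (-(s ^ 2 * u ^ 2 / 4)) ≤ 4 / s := by
  have h1 := gint (c := s ^ 2 / 4) (by positivity) hr
  have e : (fun u : ℝ => Real.exp (-(s ^ 2 * u ^ 2 / 4))) =
      fun u : ℝ => Real.exp (-(s ^ 2 / 4) * u ^ 2) := by
    funext u; congr 1; ring
  rw [e]
  refine h1.trans ?_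
  rw [Real.sqrt_le_left (by positivity), div_pow]
  have e2 : Real.pi / (s ^ 2 / 4) = (4 * Real.pi) / s ^ 2 := by field_simp
  rw [e2]
  have := Real.pi_le_four
  gcongr
  linarith

lemma g8 {s r : ℝ} (hs : 0 < s) (hr : 0 ≤ r) :
    ∫ u in (-r)..r, Real.exp (-(s ^ 2 * u ^ 2 / 8)) ≤ 6 / s := by
  have h1 := gint (c := s ^ 2 / 8) (by positivity) hr
  have e : (fun u : ℝ => Real.exp (-(s ^ 2 * u ^ 2 / 8))) =
      fun u : ℝ => Real.exp (-(s ^ 2 / 8) * u ^ 2) := by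
    funext u; congr 1; ring
  rw [e]
  refine h1.trans ?_
  rw [Real.sqrt_le_left (by positivity), div_pow]
  have e2 : Real.pi / (s ^ 2 / 8) = (8 * Real.pi) / s ^ 2 := by field_simp
  rw [e2]
  have := Real.pi_le_four
  gcongr
  linarith

lemma hump8 {s : ℝ} (hs0 : 0 < s) (u : ℝ) : |u| * Real.exp (-(s ^ 2 * u ^ 2 / 8)) ≤ 2 / s := by
  rw [le_div_iff₀ hs0, Real.exp_neg]
  have h1 := Real.add_one_le_exp (s ^ 2 * u ^ 2 / 8)
  have h2 : |u| * s ≤ 2 * Real.exp (s ^ 2 * u ^ 2 / 8) := by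
    refine le_trans ?_ (mul_le_mul_of_nonneg_left h1 (by norm_num))
    have h3 : s ^ 2 * u ^ 2 = (|u| * s) ^ 2 := by rw [mul_pow, sq_abs]; ring
    rw [h3]
    nlinarith [sq_nonneg (|u| * s / 2 - 1)]
  have h4 := Real.exp_pos (s ^ 2 * u ^ 2 / 8)
  rw [mul_right_comm, ← div_eq_mul_inv, div_le_iff₀ h4]
  exact h2

/-- The half-line integral at height `y`. -/
noncomputable def JJ (a : ℝ) (F : ℂ → ℂ) (y : ℝ) : ℂ := ∫ v in Ioi (0 : ℝ), kk a y F 0 v

/-- The half-line integral with weight `v` at height `y`. -/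
noncomputable def BB (a : ℝ) (F : ℂ → ℂ) (y : ℝ) : ℂ := ∫ v in Ioi (0 : ℝ), (v : ℂ) * kk a y F 0 v

lemma Q_kk0 {F : ℂ → ℂ} {a s y : ℝ} (hs : s ^ 2 = a) (v : ℝ) :
    Q F s (((0 : ℝ) : ℂ) + y * I) (v + y * I) = kk a y F 0 v := by
  rw [Q_kk hs]
  simp

lemma ng_mono {δ a g η η' : ℝ} {F : ℂ → ℂ} (h : NG δ a g η F) (hη : η ≤ η') (ha : 0 ≤ a) :
    NG δ a g η' F := by
  refine ⟨h.diff, h.symm, fun z h1 h2 => ?_, h.near, h.grow⟩
  obtain ⟨h3, h4⟩ := h.far z h1 h2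
  exact ⟨h3, h4.trans (mul_le_mul_of_nonneg_right hη ha)⟩

theorem est (hUD : S_UD) {F : ℂ → ℂ} {a s y μ θ : ℝ} (hs : s ^ 2 = a) (hs0 : 30000 ≤ s)
    (ha : 10 ^ 9 ≤ a) (hμ : 0 < μ) (hμ1 : μ ≤ 1 / 1000) (hnum : Real.exp (-(1 / 1000 * a)) ≤ μ / s)
    (hsμ : 1 / s ≤ μ) (hθ : 0 < θ) (hθ1 : θ ≤ 1 / 10 ^ 6) (hN : NG (1 / 2) a (a / 2) θ F) (hy : |y| ≤ 1) :
    0 < ‖JJ a F y‖ ∧ ‖BB a F y - JJ a F y‖ ≤ (31 * μ + θ) * ‖JJ a F y‖ ∧
    ∀ h : ℝ, 0 ≤ h → a * h ≤ 4 → |y + h| ≤ 1 →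
      ‖JJ a F (y + h) - cexp (((a * h : ℝ) : ℂ) * I) * JJ a F y‖ ≤ (15 * μ + 41 * θ) * ‖JJ a F y‖ := by
  have hs00 : 0 < s := by linarith
  have hs01 : 1 ≤ s := by linarith
  have ha0 : 0 < a := by linarith
  have ha1 : 1 ≤ a := by linarith
  have h : NG (1 / 2) a (a / 2) (1 / 10 ^ 6) F := ng_mono hN hθ1 ha0.le
  have hβ : |(0 : ℝ)| ≤ 1 / 2 := by norm_num
  have hy' := abs_le.1 hy
  obtain ⟨p, hp⟩ : ∃ p : ℂ, p = 1 + ((0 : ℝ) : ℂ) + y * I := ⟨_, rfl⟩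
  have hpr : p.re = 1 := by rw [hp]; simp
  have hpi : p.im = y := by rw [hp]; simp
  have hLc : Lc (2 / 5) s θ (a : ℂ) p F := by
    intro w hw
    rw [Metric.mem_ball, dist_eq_norm] at hw
    have a1 := (Complex.abs_re_le_norm (w - p)).trans hw.le
    have a2 := (Complex.abs_im_le_norm (w - p)).trans hw.le
    rw [Complex.sub_re, hpr, abs_le] at a1
    rw [Complex.sub_im, hpi, abs_le] at a2
    have hn : ‖w‖ ≤ 20 := by
      have h5 := Complex.norm_le_abs_re_add_abs_im w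
      have h6 : |w.re| ≤ 2 := by rw [abs_le]; constructor <;> linarith [a1.1, a1.2]
      have h7 : |w.im| ≤ 2 := by rw [abs_le]; constructor <;> linarith [a2.1, a2.2]
      linarith
    obtain ⟨c1, c2⟩ := hN.far w (by linarith [a1.1]) hn
    rw [hs]
    exact ⟨h.diff w, c1, c2⟩
  obtain ⟨w0, hw0, hdec, hlow⟩ := sad (by norm_num) (by norm_num) hs0
    (by norm_num; linarith) hθ (hθ1.trans (by norm_num)) hLc
  have hzz : p - (a : ℂ) / (s : ℂ) ^ 2 = ((0 : ℝ) : ℂ) + y * I := by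
    have e1 : (s : ℂ) ^ 2 = a := by rw [← hs]; push_cast; rfl
    have e2 : (a : ℂ) ≠ 0 := by exact_mod_cast ha0.ne'
    rw [e1, div_self e2, hp]
    ring
  rw [hzz] at hdec hlow
  have h25 : (2 / 5 / 5 : ℝ) = 2 / 25 := by norm_num
  rw [h25] at hdec hlow
  have h1 : |w0.re - 1 - 0| ≤ 1 / 10 ^ 6 := by
    have := (Complex.abs_re_le_norm (w0 - p)).trans hw0
    rw [Complex.sub_re, hpr] at this
    rw [sub_zero]
    exact this.trans hθ1
  have h2 : |w0.im - y| ≤ 1 / 10 ^ 6 := by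
    have := (Complex.abs_im_le_norm (w0 - p)).trans hw0
    rw [Complex.sub_im, hpi] at this
    exact this.trans hθ1
  have h1' := abs_le.1 h1
  have h2' := abs_le.1 h2
  norm_num at h1' h2'
  obtain ⟨N0, hN0⟩ : ∃ N0 : ℝ, N0 = ‖Q F s (((0 : ℝ) : ℂ) + y * I) w0‖ := ⟨_, rfl⟩
  have hN0p : 0 < N0 := by
    have e1 := b4 hs ha0.le hβ hy h h1 h2
    have e2 : 0 < NN' a 0 F := by
      have : F 1 ≠ 0 := (h.far 1 (by norm_num) (by simp)).1
      exact mul_pos (norm_pos_iff.2 this) (Real.exp_pos _)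
    rw [← hN0] at e1
    by_contra hcon
    push Not at hcon
    have : N0 * Real.exp (1 / 10000 * a) ≤ 0 := mul_nonpos_of_nonpos_of_nonneg hcon (Real.exp_pos _).le
    linarith
  have hQd := Q_diff h.diff s (((0 : ℝ) : ℂ) + y * I)
  have hkk : ∀ y : ℝ, (fun v : ℝ => Q F s (((0 : ℝ) : ℂ) + y * I) (v + y * I)) = kk a y F 0 := by
    intro y
    funext v
    exact Q_kk0 hs v
  have hi0 : IntegrableOn (fun v : ℝ => Q F s (((0 : ℝ) : ℂ) + y * I) (v + y * I)) (Ioi 0) := by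
    rw [hkk]
    exact (kk_int hUD ha1 hy h 0).integrableOn
  have hi1 : IntegrableOn (fun v : ℝ => (v : ℂ) * Q F s (((0 : ℝ) : ℂ) + y * I) (v + y * I)) (Ioi 0) := by
    have e : (fun v : ℝ => (v : ℂ) * Q F s (((0 : ℝ) : ℂ) + y * I) (v + y * I)) =
        fun v : ℝ => (v : ℂ) * kk a y F 0 v := by
      funext v
      rw [Q_kk0 hs v]
    rw [e]
    exact (vkk_int hUD ha1 hy h 0).integrableOn
  have B0 := bothm hμ.le hs hs01 ha hnum hβ hy h h1 h2 (Q F s (((0 : ℝ) : ℂ) + y * I)) hQd (fun w => by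
    have : 0 ≤ ‖w - w0‖ * ‖Q F s (((0 : ℝ) : ℂ) + y * I) w‖ := by positivity
    linarith) hi0
  have hK : IntegrableOn (fun v : ℝ => ((v : ℂ) + y * I - w0) *
      Q F s (((0 : ℝ) : ℂ) + y * I) (v + y * I)) (Ioi 0) := by
    refine (hi1.add (hi0.const_mul ((y : ℂ) * I - w0))).congr (Eventually.of_forall fun v => ?_)
    simp only [Pi.add_apply]
    ring
  have B1 := bothm hμ.le hs hs01 ha hnum hβ hy h h1 h2 (fun w => (w - w0) * Q F s (((0 : ℝ) : ℂ) + y * I) w)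
    ((differentiable_id.sub_const w0).mul hQd) (fun w => by
    rw [norm_mul]
    have : 0 ≤ ‖Q F s (((0 : ℝ) : ℂ) + y * I) w‖ := norm_nonneg _
    linarith) hK
  rw [← hN0] at B0 B1 hlow
  obtain ⟨N, hNd⟩ : ∃ N : ℝ, N = 1 / s * N0 := ⟨_, rfl⟩
  have hNp : 0 < N := by rw [hNd]; positivity
  have hμN : μ / s * N0 = μ * N := by rw [hNd]; ring
  rw [hμN] at B0 B1
  have L1 : ‖∫ u in (-(2 / 25) : ℝ)..(2 / 25), (w0 + u - w0) * Q F s (((0 : ℝ) : ℂ) + y * I) (w0 + u)‖ ≤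
      12 * (1 / s * N) := by
    have e1 := intervalIntegral.norm_integral_le_of_norm_le (a := (-(2 / 25) : ℝ)) (b := 2 / 25)
      (μ := volume)
      (f := fun u : ℝ => (w0 + u - w0) * Q F s (((0 : ℝ) : ℂ) + y * I) (w0 + u))
      (g := fun u : ℝ => 2 / s * N0 * Real.exp (-(s ^ 2 * u ^ 2 / 8))) (by norm_num)
      (Eventually.of_forall fun u hu => by
        have hu' : |u| ≤ 2 / 25 := abs_le.2 ⟨hu.1.le, hu.2⟩
        rw [add_sub_cancel_left, norm_mul, Complex.norm_real, Real.norm_eq_abs]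
        have e8 : Real.exp (-(s ^ 2 * u ^ 2 / 4)) =
            Real.exp (-(s ^ 2 * u ^ 2 / 8)) * Real.exp (-(s ^ 2 * u ^ 2 / 8)) := by
          rw [← Real.exp_add]; congr 1; ring
        calc |u| * ‖Q F s (((0 : ℝ) : ℂ) + y * I) (w0 + u)‖
            ≤ |u| * (Real.exp (-(s ^ 2 * u ^ 2 / 4)) * N0) := by
              rw [hN0]
              exact mul_le_mul_of_nonneg_left (hdec u hu') (abs_nonneg _)
          _ = (|u| * Real.exp (-(s ^ 2 * u ^ 2 / 8))) * (Real.exp (-(s ^ 2 * u ^ 2 / 8)) * N0) := by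
              rw [e8]; ring
          _ ≤ (2 / s) * (Real.exp (-(s ^ 2 * u ^ 2 / 8)) * N0) :=
              mul_le_mul_of_nonneg_right (hump8 hs00 u) (by positivity)
          _ = _ := by ring)
      (Continuous.intervalIntegrable (by fun_prop) _ _)
    refine e1.trans ?_
    rw [intervalIntegral.integral_const_mul]
    have e2 := g8 hs00 (r := 2 / 25) (by norm_num)
    calc 2 / s * N0 * ∫ u in (-(2 / 25) : ℝ)..(2 / 25), Real.exp (-(s ^ 2 * u ^ 2 / 8))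
        ≤ 2 / s * N0 * (6 / s) := mul_le_mul_of_nonneg_left e2 (by positivity)
      _ = 12 * (1 / s * N) := by rw [hNd]; ring
  obtain ⟨J0, hJ0⟩ : ∃ J0 : ℂ, J0 = JJ a F y := ⟨_, rfl⟩
  have hJ0' : J0 = ∫ v in Ioi (0 : ℝ), Q F s (((0 : ℝ) : ℂ) + y * I) (v + y * I) := by
    rw [hJ0, JJ, hkk]
  obtain ⟨K, hKd⟩ : ∃ K : ℂ, K = ∫ v in Ioi (0 : ℝ), ((v : ℂ) + y * I - w0) *
      Q F s (((0 : ℝ) : ℂ) + y * I) (v + y * I) := ⟨_, rfl⟩
  have hJ1 : BB a F y = K + (w0 - y * I) * J0 := by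
    have e : BB a F y = ∫ v in Ioi (0 : ℝ), (v : ℂ) * Q F s (((0 : ℝ) : ℂ) + y * I) (v + y * I) := by
      unfold BB
      congr 1
      funext v
      rw [Q_kk0 hs v]
    rw [e, hKd, hJ0', ← integral_const_mul, ← integral_add hK (hi0.const_mul _)]
    congr 1
    funext v
    ring
  rw [← hJ0'] at B0
  rw [← hKd] at B1
  have n0 : 49 / 100 * N ≤ ‖J0‖ := by
    have e1 := norm_sub_norm_le (∫ u in (-(2 / 25) : ℝ)..(2 / 25), Q F s (((0 : ℝ) : ℂ) + y * I) (w0 + u)) J0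
    rw [norm_sub_rev] at e1
    have e2 : 1 / 2 / s * N0 = 1 / 2 * N := by rw [hNd]; ring
    rw [e2] at hlow
    have e4 : μ * N ≤ 1 / 1000 * N := mul_le_mul_of_nonneg_right hμ1 hNp.le
    linarith
  have n1 : ‖K‖ ≤ 15 * (μ * N) := by
    have e1 := norm_sub_norm_le K
      (∫ u in (-(2 / 25) : ℝ)..(2 / 25), (w0 + u - w0) * Q F s (((0 : ℝ) : ℂ) + y * I) (w0 + u))
    have e4 : 1 / s * N ≤ μ * N := mul_le_mul_of_nonneg_right hsμ hNp.le
    linarith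
  have hNJ : N ≤ 100 / 49 * ‖J0‖ := by linarith
  have hJ0p : 0 < ‖J0‖ := by linarith
  have hμN0 : 0 ≤ μ * N := by positivity
  refine ⟨by rw [← hJ0]; exact hJ0p, ?_, ?_⟩
  · rw [hJ1, ← hJ0]
    have e1 : K + (w0 - y * I) * J0 - J0 = K + (w0 - p) * J0 := by
      rw [hp]
      push_cast
      ring
    rw [e1]
    have e2 : ‖(w0 - p) * J0‖ ≤ θ * ‖J0‖ := by
      rw [norm_mul]
      exact mul_le_mul_of_nonneg_right hw0 (norm_nonneg _)
    have e3 := norm_add_le K ((w0 - p) * J0)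
    have e4 : μ * N ≤ μ * (100 / 49 * ‖J0‖) := mul_le_mul_of_nonneg_left hNJ hμ.le
    have e5 : 0 ≤ μ * ‖J0‖ := by positivity
    linarith
  · intro h' hh0 hah hyh
    -- the shifted height
    have hh1 : h' ≤ 1 / 10 ^ 6 := by
      have : 10 ^ 9 * h' ≤ a * h' := mul_le_mul_of_nonneg_right ha hh0
      linarith
    obtain ⟨w1, hw1⟩ : ∃ w1 : ℂ, w1 = w0 + h' * I := ⟨_, rfl⟩
    have hw1r : w1.re = w0.re := by rw [hw1]; simp
    have hw1i : w1.im = w0.im + h' := by rw [hw1]; simp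
    have k1 : |w1.re - 1 - 0| ≤ 1 / 10 ^ 6 := by rw [hw1r]; exact h1
    have k2 : |w1.im - (y + h')| ≤ 1 / 10 ^ 6 := by
      rw [hw1i, add_sub_add_right_eq_sub]; exact h2
    have hi0h : IntegrableOn (fun v : ℝ => Q F s (((0 : ℝ) : ℂ) + (y + h' : ℝ) * I) (v + (y + h' : ℝ) * I))
        (Ioi 0) := by
      rw [hkk]
      exact (kk_int hUD ha1 hyh h 0).integrableOn
    have hQdh := Q_diff h.diff s (((0 : ℝ) : ℂ) + (y + h' : ℝ) * I)
    have B2 := bothm hμ.le hs hs01 ha hnum hβ hyh h k1 k2 (Q F s (((0 : ℝ) : ℂ) + (y + h' : ℝ) * I)) hQdh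
      (fun w => by
      have : 0 ≤ ‖w - w1‖ * ‖Q F s (((0 : ℝ) : ℂ) + (y + h' : ℝ) * I) w‖ := by positivity
      linarith) hi0h
    -- rotation
    obtain ⟨S, hS⟩ : ∃ S : Set ℂ, S = {c : ℂ | 1 / 20 ≤ c.re} ∩ Metric.closedBall 0 20 := ⟨_, rfl⟩
    have hconv : Convex ℝ S := by
      rw [hS]
      exact (convex_halfSpace_re_ge (1 / 20)).inter (convex_closedBall 0 20)
    have hF : ∀ z ∈ S, F z ≠ 0 ∧ ‖logDeriv F z - a‖ ≤ θ * a := by
      intro z hz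
      rw [hS] at hz
      have h3 : 1 / 20 ≤ z.re := hz.1
      have h4 : ‖z‖ ≤ 20 := by simpa using hz.2
      exact hN.far z (by linarith) h4
    have hrot : ∀ u : ℝ, |u| ≤ 2 / 25 →
        ‖F (w0 + u + h' * I) - cexp (((a * h' : ℝ) : ℂ) * I) * F (w0 + u)‖ ≤ 5 * θ * ‖F (w0 + u)‖ ∧
        ‖F (w0 + u + h' * I)‖ ≤ 5 / 4 * ‖F (w0 + u)‖ := by
      intro u hu
      have hu' := abs_le.1 hu
      refine rot h.diff hconv hF ha0.le hθ.le (hθ1.trans (by norm_num)) hh0 hah ?_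
      intro t ht
      have r1 : (w0 + (u : ℂ) + (t : ℂ) * I).re = w0.re + u := by simp
      have r2 : (w0 + (u : ℂ) + (t : ℂ) * I).im = w0.im + t := by simp
      rw [hS]
      refine ⟨?_, ?_⟩
      · show (1 : ℝ) / 20 ≤ (w0 + (u : ℂ) + (t : ℂ) * I).re
        rw [r1]
        linarith [h1'.1, hu'.1]
      · rw [mem_closedBall_zero_iff]
        have h5 := Complex.norm_le_abs_re_add_abs_im (w0 + (u : ℂ) + (t : ℂ) * I)
        rw [r1, r2] at h5
        have h6 : |w0.re + u| ≤ 2 := by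
          rw [abs_le]; constructor <;> linarith [h1'.1, h1'.2, hu'.1, hu'.2]
        have h7 : |w0.im + t| ≤ 3 := by
          rw [abs_le]; constructor <;> linarith [h2'.1, h2'.2, hy'.1, hy'.2, ht.1, ht.2]
        linarith
    have hQh : ∀ u : ℝ, Q F s (((0 : ℝ) : ℂ) + (y + h' : ℝ) * I) (w1 + u) =
        cexp (-((s : ℂ) ^ 2 * (w0 + u - (((0 : ℝ) : ℂ) + y * I)) ^ 2 / 2)) * F (w0 + u + h' * I) := by
      intro u
      unfold Q
      rw [hw1]
      have q1 : w0 + (h' : ℂ) * I + (u : ℂ) = w0 + u + h' * I := by ring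
      have q2 : w0 + (h' : ℂ) * I + (u : ℂ) - (((0 : ℝ) : ℂ) + ((y + h' : ℝ) : ℂ) * I) =
          w0 + u - (((0 : ℝ) : ℂ) + y * I) := by push_cast; ring
      rw [q2, q1]
    have hQn : ‖Q F s (((0 : ℝ) : ℂ) + (y + h' : ℝ) * I) w1‖ ≤ 5 / 4 * N0 := by
      have z1 : w1 + ((0 : ℝ) : ℂ) = w1 := by simp
      have z0 : w0 + ((0 : ℝ) : ℂ) = w0 := by simp
      have e1 := hQh 0
      rw [z1, z0] at e1
      rw [e1, hN0, Q, norm_mul, norm_mul]
      have e2 := (hrot 0 (by rw [abs_zero]; norm_num)).2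
      rw [z0] at e2
      calc ‖cexp (-((s : ℂ) ^ 2 * (w0 - (((0 : ℝ) : ℂ) + y * I)) ^ 2 / 2))‖ * ‖F (w0 + h' * I)‖
          ≤ ‖cexp (-((s : ℂ) ^ 2 * (w0 - (((0 : ℝ) : ℂ) + y * I)) ^ 2 / 2))‖ * (5 / 4 * ‖F w0‖) :=
            mul_le_mul_of_nonneg_left e2 (norm_nonneg _)
        _ = _ := by ring
    have hμN' : μ / s * ‖Q F s (((0 : ℝ) : ℂ) + (y + h' : ℝ) * I) w1‖ ≤ 5 / 4 * (μ * N) := by
      calc μ / s * ‖Q F s (((0 : ℝ) : ℂ) + (y + h' : ℝ) * I) w1‖ ≤ μ / s * (5 / 4 * N0) :=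
            mul_le_mul_of_nonneg_left hQn (by positivity)
        _ = 5 / 4 * (μ * N) := by rw [← hμN]; ring
    have hcont : Continuous fun u : ℝ => Q F s (((0 : ℝ) : ℂ) + y * I) (w0 + u) := by
      exact hQd.continuous.comp (by fun_prop)
    have hconth : Continuous fun u : ℝ => Q F s (((0 : ℝ) : ℂ) + (y + h' : ℝ) * I) (w1 + u) := by
      exact hQdh.continuous.comp (by fun_prop)
    have L2 : ‖(∫ u in (-(2 / 25) : ℝ)..(2 / 25), Q F s (((0 : ℝ) : ℂ) + (y + h' : ℝ) * I) (w1 + u)) -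
        cexp (((a * h' : ℝ) : ℂ) * I) * ∫ u in (-(2 / 25) : ℝ)..(2 / 25),
          Q F s (((0 : ℝ) : ℂ) + y * I) (w0 + u)‖ ≤ 20 * (θ * N) := by
      rw [← intervalIntegral.integral_const_mul, ← intervalIntegral.integral_sub
        (hconth.intervalIntegrable _ _) ((hcont.const_mul _).intervalIntegrable _ _)]
      have e1 := intervalIntegral.norm_integral_le_of_norm_le (a := (-(2 / 25) : ℝ)) (b := 2 / 25)
        (μ := volume)
        (f := fun u : ℝ => Q F s (((0 : ℝ) : ℂ) + (y + h' : ℝ) * I) (w1 + u) -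
          cexp (((a * h' : ℝ) : ℂ) * I) * Q F s (((0 : ℝ) : ℂ) + y * I) (w0 + u))
        (g := fun u : ℝ => 5 * θ * N0 * Real.exp (-(s ^ 2 * u ^ 2 / 4))) (by norm_num)
        (Eventually.of_forall fun u hu => by
          have hu' : |u| ≤ 2 / 25 := abs_le.2 ⟨hu.1.le, hu.2⟩
          rw [hQh u, Q]
          obtain ⟨E, hE⟩ : ∃ E : ℂ, E = cexp (-((s : ℂ) ^ 2 * (w0 + u - (((0 : ℝ) : ℂ) + y * I)) ^ 2 / 2)) :=
            ⟨_, rfl⟩
          have hd := hdec u hu'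
          rw [← hN0, Q, ← hE, norm_mul] at hd
          rw [← hE]
          have e2 : E * F (w0 + u + h' * I) - cexp (((a * h' : ℝ) : ℂ) * I) * (E * F (w0 + u)) =
              E * (F (w0 + u + h' * I) - cexp (((a * h' : ℝ) : ℂ) * I) * F (w0 + u)) := by ring
          rw [e2, norm_mul]
          calc ‖E‖ * ‖F (w0 + u + h' * I) - cexp (((a * h' : ℝ) : ℂ) * I) * F (w0 + u)‖
              ≤ ‖E‖ * (5 * θ * ‖F (w0 + u)‖) := mul_le_mul_of_nonneg_left (hrot u hu').1 (norm_nonneg _)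
            _ = 5 * θ * (‖E‖ * ‖F (w0 + u)‖) := by ring
            _ ≤ 5 * θ * (Real.exp (-(s ^ 2 * u ^ 2 / 4)) * N0) :=
                mul_le_mul_of_nonneg_left hd (by positivity)
            _ = _ := by ring)
        (Continuous.intervalIntegrable (by fun_prop) _ _)
      refine e1.trans ?_
      rw [intervalIntegral.integral_const_mul]
      have e2 := g4 hs00 (r := 2 / 25) (by norm_num)
      calc 5 * θ * N0 * ∫ u in (-(2 / 25) : ℝ)..(2 / 25), Real.exp (-(s ^ 2 * u ^ 2 / 4))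
          ≤ 5 * θ * N0 * (4 / s) := mul_le_mul_of_nonneg_left e2 (by positivity)
        _ = 20 * (θ * N) := by rw [hNd]; ring
    have hJh : JJ a F (y + h') =
        ∫ v in Ioi (0 : ℝ), Q F s (((0 : ℝ) : ℂ) + (y + h' : ℝ) * I) (v + (y + h' : ℝ) * I) := by
      rw [JJ, hkk]
    rw [← hJh] at B2
    rw [← hJ0]
    obtain ⟨I0, hI0⟩ : ∃ I0 : ℂ, I0 = ∫ u in (-(2 / 25) : ℝ)..(2 / 25),
      Q F s (((0 : ℝ) : ℂ) + y * I) (w0 + u) := ⟨_, rfl⟩
    obtain ⟨Ih, hIh⟩ : ∃ Ih : ℂ, Ih = ∫ u in (-(2 / 25) : ℝ)..(2 / 25),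
      Q F s (((0 : ℝ) : ℂ) + (y + h' : ℝ) * I) (w1 + u) := ⟨_, rfl⟩
    rw [← hI0, ← hIh] at L2
    rw [← hIh] at B2
    rw [← hI0] at B0
    obtain ⟨e, he⟩ : ∃ e : ℂ, e = cexp (((a * h' : ℝ) : ℂ) * I) := ⟨_, rfl⟩
    have hen : ‖e‖ = 1 := by rw [he, Complex.norm_exp_ofReal_mul_I]
    rw [← he] at L2 ⊢
    have e1 : JJ a F (y + h') - e * J0 = (JJ a F (y + h') - Ih) + (Ih - e * I0) - e * (J0 - I0) := by ring
    have e2 : ‖e * (J0 - I0)‖ ≤ 3 * (μ * N) := by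
      rw [norm_mul, hen, one_mul]; exact B0
    rw [e1]
    have e3 := norm_sub_le ((JJ a F (y + h') - Ih) + (Ih - e * I0)) (e * (J0 - I0))
    have e4 := norm_add_le (JJ a F (y + h') - Ih) (Ih - e * I0)
    have e5 : μ * N ≤ μ * (100 / 49 * ‖J0‖) := mul_le_mul_of_nonneg_left hNJ hμ.le
    have e6 : θ * N ≤ θ * (100 / 49 * ‖J0‖) := mul_le_mul_of_nonneg_left hNJ hθ.le
    have e7 : 0 ≤ μ * ‖J0‖ := by positivity
    have e8 : 0 ≤ θ * ‖J0‖ := by positivity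
    linarith

end Pool.Agent.R838.CR
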