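import Pool.Agent.R838.CR.Loc2

set_option autoImplicit false

/-!
# The next zero on the line, local form
-/

namespace Pool.Agent.R838.CR

open Complex Filter Topology MeasureTheory Set
open Pool.Agent.W186.SD
open Pool.Agent.W366.SDNL (kk uu_eq ud0 ud)

lemma locest (hUD : S_UD) {ε : ℝ} (hε : 0 < ε) (hε1 : ε ≤ 1) : ∃ θ a0 : ℝ, 0 < θ ∧ θ ≤ 1 / 10 ^ 6 ∧
    10 ^ 9 ≤ a0 ∧ ∀ (a : ℝ) (F : ℂ → ℂ), a0 ≤ a → NG (1 / 2) a (a / 2) θ F → ∀ y : ℝ, |y| ≤ 1 →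
    0 < ‖JJ a F y‖ ∧ ‖BB a F y - JJ a F y‖ ≤ ε * ‖JJ a F y‖ ∧
    ∀ h : ℝ, 0 ≤ h → a * h ≤ 4 → |y + h| ≤ 1 →
      ‖JJ a F (y + h) - cexp (((a * h : ℝ) : ℂ) * I) * JJ a F y‖ ≤ ε * ‖JJ a F y‖ := by
  obtain ⟨μ, hμ⟩ : ∃ μ : ℝ, μ = ε / 10000 := ⟨_, rfl⟩
  obtain ⟨θ, hθ⟩ : ∃ θ : ℝ, θ = ε / 10 ^ 6 := ⟨_, rfl⟩
  have hμ0 : 0 < μ := by rw [hμ]; positivity
  have hθ0 : 0 < θ := by rw [hθ]; positivity
  refine ⟨θ, max (max (10 ^ 9) (2 * 10 ^ 6 / μ)) ((1 / μ) ^ 2), hθ0, ?_, ?_, ?_⟩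
  · rw [hθ]
    gcongr
  · exact (le_max_left _ _).trans (le_max_left _ _)
  intro a F ha hN y hy
  have ha1 : 10 ^ 9 ≤ a := ((le_max_left _ _).trans (le_max_left _ _)).trans ha
  have ha2 : 2 * 10 ^ 6 / μ ≤ a := ((le_max_right _ _).trans (le_max_left _ _)).trans ha
  have ha3 : (1 / μ) ^ 2 ≤ a := (le_max_right _ _).trans ha
  have ha0 : 0 ≤ a := by linarith
  obtain ⟨s, hsd⟩ : ∃ s, s = Real.sqrt a := ⟨_, rfl⟩
  have hs : s ^ 2 = a := by rw [hsd]; exact Real.sq_sqrt ha0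
  have hsn : 0 ≤ s := by rw [hsd]; exact Real.sqrt_nonneg _
  have hs0 : 30000 ≤ s := by
    by_contra hcon
    push Not at hcon
    nlinarith
  have hs00 : 0 < s := by linarith
  have hsμ : 1 / s ≤ μ := by
    have h1 : 1 / μ ≤ s := by
      rw [hsd]
      exact Real.le_sqrt_of_sq_le ha3
    rw [div_le_iff₀ hμ0] at h1
    rw [div_le_iff₀ hs00]
    linarith
  have hμ1 : μ ≤ 1 / 1000 := by rw [hμ]; linarith
  have hθ1 : θ ≤ 1 / 10 ^ 6 := by rw [hθ]; gcongr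
  obtain ⟨h1, h2, h3⟩ := est hUD hs hs0 ha1 hμ0 hμ1 (numm hμ0 hs (by linarith) ha2) hsμ hθ0 hθ1 hN hy
  refine ⟨h1, h2.trans ?_, fun h hh0 hah hyh => (h3 h hh0 hah hyh).trans ?_⟩
  · refine mul_le_mul_of_nonneg_right ?_ h1.le
    rw [hμ, hθ]
    norm_num
    linarith
  · refine mul_le_mul_of_nonneg_right ?_ h1.le
    rw [hμ, hθ]
    norm_num
    linarith

lemma uu_axis (hUD : S_UD) {F : ℂ → ℂ} {a η y : ℝ} (ha : 1 ≤ a) (hy : |y| ≤ 1)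
    (h : NG (1 / 2) a (a / 2) η F) : UU (a / 2) F (y * I) = ((2 * (JJ a F y).re : ℝ) : ℂ) := by
  have h1 := uu_eq hUD ha hy h 0
  have e1 : ((0 : ℝ) : ℂ) + y * I = y * I := by simp
  rw [e1] at h1
  rw [h1, neg_zero]
  have e2 : ((Real.exp (-(a / 2 * (0 : ℝ) ^ 2)) : ℝ) : ℂ) = 1 := by simp
  rw [e2, one_mul, JJ]
  obtain ⟨A, hA⟩ : ∃ A : ℂ, A = ∫ v in Ioi (0 : ℝ), kk a y F 0 v := ⟨_, rfl⟩
  rw [← hA, add_comm, Complex.add_conj]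

/-- The derivative of the real part on the axis. -/
lemma re_deriv (hUD : S_UD) {F : ℂ → ℂ} {a η y : ℝ} (ha : 1 ≤ a) (hy : |y| < 1)
    (h : NG (1 / 2) a (a / 2) η F) :
    HasDerivAt (fun y : ℝ => (JJ a F y).re) (-(a * (BB a F y).im)) y := by
  have h1 := (ud hUD ha hy.le h 0).2.2.differentiableAt.hasDerivAt
  have e1 : ((0 : ℝ) : ℂ) + y * I = y * I := by simp
  rw [ud0 hUD ha hy.le h, e1] at h1
  have h2 : HasDerivAt (fun y : ℝ => (y : ℂ) * I) I y := by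
    have h := (Complex.ofRealCLM.hasDerivAt (x := y)).mul_const I
    simpa using h
  obtain ⟨B, hB⟩ : ∃ B : ℂ, B = BB a F y := ⟨_, rfl⟩
  have hB' : B = ∫ v in Ioi (0 : ℝ), (v : ℂ) * kk a y F 0 v := hB
  rw [← hB'] at h1
  rw [← hB]
  have h3 : HasDerivAt (fun y : ℝ => UU (a / 2) F ((y : ℂ) * I))
      ((a : ℂ) * (B - (starRingEnd ℂ) B) * I) y :=
    HasDerivAt.comp (h₂ := UU (a / 2) F) (h := fun y : ℝ => (y : ℂ) * I) y h1 h2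
  have h4 : HasDerivAt (fun y : ℝ => (UU (a / 2) F ((y : ℂ) * I)).re)
      ((a : ℂ) * (B - (starRingEnd ℂ) B) * I).re y :=
    Complex.reCLM.hasFDerivAt.comp_hasDerivAt y h3
  have h5 : HasDerivAt (fun y : ℝ => 1 / 2 * (UU (a / 2) F ((y : ℂ) * I)).re)
      (1 / 2 * ((a : ℂ) * (B - (starRingEnd ℂ) B) * I).re) y := h4.const_mul (1 / 2)
  have e2 : 1 / 2 * ((a : ℂ) * (B - (starRingEnd ℂ) B) * I).re = -(a * B.im) := by
    rw [Complex.sub_conj]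
    simp
    ring
  rw [e2] at h5
  refine h5.congr_of_eventuallyEq ?_
  have hopen : IsOpen {y : ℝ | |y| < 1} := isOpen_lt continuous_abs continuous_const
  filter_upwards [hopen.mem_nhds hy] with y' hy'
  have hy'' : |y'| < 1 := hy'
  rw [uu_axis hUD ha hy''.le h, Complex.ofReal_re]
  ring

end Pool.Agent.R838.CR
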