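import Mathlib

set_option autoImplicit false

/-!
# The first zero of a function close to a sine
-/

namespace Pool.Agent.R838.CR

open Set

lemma sin_low {ε : ℝ} (hε : 0 < ε) (hε1 : ε ≤ 1 / 2) : ε / 2 ≤ Real.sin ε := by
  have h1 := Real.sin_gt_sub_cube hε
  have h2 : ε ^ 2 ≤ (1 / 2) ^ 2 := pow_le_pow_left₀ hε.le hε1 2
  have h3 : ε ^ 3 = ε ^ 2 * ε := by ring
  have h4 : ε ^ 2 * ε ≤ (1 / 2) ^ 2 * ε := mul_le_mul_of_nonneg_right h2 hε.le
  norm_num at h4
  linarith

lemma sin_mid {ε x : ℝ} (hε : 0 < ε) (hε1 : ε ≤ 1 / 2) (h1 : ε ≤ x) (h2 : x ≤ Real.pi - ε) :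
    ε / 2 ≤ Real.sin x := by
  have hpi := Real.pi_gt_three
  refine (sin_low hε hε1).trans ?_
  rcases le_total x (Real.pi / 2) with h | h
  · exact Real.sin_le_sin_of_le_of_le_pi_div_two (by linarith) h h1
  · rw [← Real.sin_pi_sub x]
    exact Real.sin_le_sin_of_le_of_le_pi_div_two (by linarith) (by linarith) (by linarith)

lemma first_zero {g k : ℝ → ℝ} {a ε ε1 : ℝ} (ha : 0 < a) (hε : 0 < ε) (hε1 : ε ≤ 1 / 2)
    (hεε : ε1 ≤ ε / 8) (hg0 : g 0 = 0)
    (hder : ∀ h : ℝ, 0 ≤ h → a * h ≤ 4 → HasDerivAt g (a * k h) h)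
    (hg : ∀ h : ℝ, 0 ≤ h → a * h ≤ 4 → |g h - Real.sin (a * h)| ≤ ε1)
    (hk : ∀ h : ℝ, 0 ≤ h → a * h ≤ 4 → |k h - Real.cos (a * h)| ≤ 3 * ε1) :
    ∃ h : ℝ, 0 < h ∧ |a * h - Real.pi| ≤ ε ∧ g h = 0 ∧ ∀ h' : ℝ, 0 < h' → h' < h → g h' ≠ 0 := by
  have hpi := Real.pi_gt_three
  have hpi2 := Real.pi_lt_d2
  norm_num at hpi2
  have hε10 : 0 ≤ ε1 := (abs_nonneg _).trans (hg 0 le_rfl (by linarith))
  -- the three regions
  have r1 : ∀ h : ℝ, 0 < h → a * h ≤ ε → 0 < g h := by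
    intro h h0 h1
    have hmono : StrictMonoOn g (Icc 0 h) := by
      refine strictMonoOn_of_deriv_pos (convex_Icc _ _) ?_ ?_
      · intro x hx
        have hax : a * x ≤ a * h := mul_le_mul_of_nonneg_left hx.2 ha.le
        exact (hder x hx.1 (by linarith)).continuousAt.continuousWithinAt
      · intro x hx
        rw [interior_Icc] at hx
        have hax : a * x ≤ a * h := mul_le_mul_of_nonneg_left hx.2.le ha.le
        have hax0 : 0 ≤ a * x := mul_nonneg ha.le hx.1.le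
        rw [(hder x hx.1.le (by linarith)).deriv]
        have h2 := (abs_le.1 (hk x hx.1.le (by linarith))).1
        have h3 := Real.one_sub_sq_div_two_le_cos (x := a * x)
        have h4 : (a * x) ^ 2 ≤ (1 / 2) ^ 2 := pow_le_pow_left₀ hax0 (by linarith) 2
        have h5 : 0 < k x := by norm_num at h4; linarith
        exact mul_pos ha h5
    have := hmono ⟨le_rfl, h0.le⟩ ⟨h0.le, le_rfl⟩ h0
    rwa [hg0] at this
  have r2 : ∀ h : ℝ, 0 < h → ε ≤ a * h → a * h ≤ Real.pi - ε → 0 < g h := by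
    intro h h0 h1 h2
    have h3 := (abs_le.1 (hg h h0.le (by linarith))).1
    have h4 := sin_mid hε hε1 h1 h2
    linarith
  obtain ⟨p, hp⟩ : ∃ p, p = (Real.pi - ε) / a := ⟨_, rfl⟩
  obtain ⟨q, hq⟩ : ∃ q, q = (Real.pi + ε) / a := ⟨_, rfl⟩
  have hap : a * p = Real.pi - ε := by rw [hp]; field_simp
  have haq : a * q = Real.pi + ε := by rw [hq]; field_simp
  have hp0 : 0 < p := by rw [hp]; exact div_pos (by linarith) ha
  have hpq : p ≤ q := by
    have : a * p ≤ a * q := by linarith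
    exact le_of_mul_le_mul_left this ha
  have hgp : 0 < g p := r2 p hp0 (by linarith) hap.le
  have hgq : g q < 0 := by
    have h3 := (abs_le.1 (hg q (hp0.le.trans hpq) (by linarith))).2
    rw [haq, add_comm, Real.sin_add_pi] at h3
    have h4 := sin_low hε hε1
    linarith
  have hcont : ContinuousOn g (Icc p q) := by
    intro x hx
    have hax : a * x ≤ a * q := mul_le_mul_of_nonneg_left hx.2 ha.le
    exact (hder x (hp0.le.trans hx.1) (by linarith)).continuousAt.continuousWithinAt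
  obtain ⟨z, hz, hgz⟩ := intermediate_value_Icc' hpq hcont (⟨hgq.le, hgp.le⟩ : (0 : ℝ) ∈ Icc (g q) (g p))
  have hcpt : IsCompact (Icc p q ∩ g ⁻¹' {0}) := by
    have hcl : IsClosed (Icc p q ∩ g ⁻¹' {0}) := hcont.preimage_isClosed_of_isClosed isClosed_Icc
      isClosed_singleton
    exact isCompact_Icc.of_isClosed_subset hcl inter_subset_left
  obtain ⟨h, hh, hleast⟩ := hcpt.exists_isLeast ⟨z, hz, hgz⟩
  have hh0 : 0 < h := hp0.trans_le hh.1.1
  have e1 : a * p ≤ a * h := mul_le_mul_of_nonneg_left hh.1.1 ha.le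
  have e2 : a * h ≤ a * q := mul_le_mul_of_nonneg_left hh.1.2 ha.le
  refine ⟨h, hh0, ?_, hh.2, ?_⟩
  · rw [abs_le]
    constructor <;> linarith
  · intro h' h0' hlt hcon
    rcases le_total (a * h') ε with h5 | h5
    · exact (r1 h' h0' h5).ne' hcon
    · rcases le_total (a * h') (Real.pi - ε) with h6 | h6
      · exact (r2 h' h0' h5 h6).ne' hcon
      · have h7 : p ≤ h' := by
          have : a * p ≤ a * h' := by linarith
          exact le_of_mul_le_mul_left this ha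
        have h8 := hleast ⟨⟨h7, hlt.le.trans hh.1.2⟩, hcon⟩
        linarith

end Pool.Agent.R838.CR
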