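import Pool.Agent.R838.CR.Loc3
import Pool.Agent.R838.CR.Real1

set_option autoImplicit false

/-!
# The next zero on the line, local form: conclusion
-/

namespace Pool.Agent.R838.CR

open Complex Filter Topology MeasureTheory Set
open Pool.Agent.W186.SD
open Pool.Agent.W366.SDNL (kk uu_eq ud0 ud)

/-- Task GAP: the next zero on the line. -/
def S_GAP : Prop := ∀ ε : ℝ, 0 < ε → ∃ η a0 : ℝ, 0 < η ∧ 1 ≤ a0 ∧ ∀ (a : ℝ) (F : ℂ → ℂ), a0 ≤ a →
  NG (1 / 2) a (a / 2) η F → ∀ y : ℝ, |y| ≤ 1 / 2 → UU (a / 2) F (y * I) = 0 →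
  ∃ h : ℝ, 0 < h ∧ h ≤ 1 / 4 ∧ |a * h - Real.pi| ≤ ε ∧ UU (a / 2) F ((y + h : ℝ) * I) = 0 ∧
    ∀ h' : ℝ, 0 < h' → h' < h → UU (a / 2) F ((y + h' : ℝ) * I) ≠ 0

theorem gap (hUD : S_UD) : S_GAP := by
  intro ε hε
  obtain ⟨e, he⟩ : ∃ e : ℝ, e = min ε (1 / 2) := ⟨_, rfl⟩
  have he0 : 0 < e := by rw [he]; exact lt_min hε (by norm_num)
  have he1 : e ≤ 1 / 2 := by rw [he]; exact min_le_right _ _
  have heε : e ≤ ε := by rw [he]; exact min_le_left _ _
  obtain ⟨ε2, hε2⟩ : ∃ ε2 : ℝ, ε2 = e / 8 := ⟨_, rfl⟩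
  have hε20 : 0 < ε2 := by rw [hε2]; positivity
  have hε21 : ε2 ≤ 1 := by rw [hε2]; linarith
  obtain ⟨θ, a0, hθ0, hθ1, ha0, H⟩ := locest hUD hε20 hε21
  refine ⟨θ, a0, hθ0, by linarith, ?_⟩
  intro a F haa hN y hy hz
  have ha9 : 10 ^ 9 ≤ a := ha0.trans haa
  have ha : 0 < a := by linarith
  have ha1 : 1 ≤ a := by linarith
  have hyy := abs_le.1 hy
  have hy1 : |y| ≤ 1 := by linarith
  obtain ⟨c1, c2, c3⟩ := H a F haa hN y hy1
  have hre0 : (JJ a F y).re = 0 := by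
    rw [uu_axis hUD ha1 hy1 hN] at hz
    have : 2 * (JJ a F y).re = 0 := by exact_mod_cast hz
    linarith
  obtain ⟨b, hb⟩ : ∃ b : ℝ, b = (JJ a F y).im := ⟨_, rfl⟩
  have hJ : JJ a F y = (b : ℂ) * I := by
    apply Complex.ext
    · rw [hre0]; simp
    · rw [hb]; simp
  have hbn : ‖JJ a F y‖ = |b| := by
    rw [hJ, norm_mul, Complex.norm_I, mul_one, Complex.norm_real, Real.norm_eq_abs]
  rw [hbn] at c1
  have hb0 : b ≠ 0 := abs_pos.1 c1
  have hsmall : ∀ h : ℝ, 0 ≤ h → a * h ≤ 4 → h ≤ 1 / 4 := by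
    intro h h0 h1
    have : 10 ^ 9 * h ≤ a * h := mul_le_mul_of_nonneg_right ha9 h0
    linarith
  have hyh : ∀ h : ℝ, 0 ≤ h → a * h ≤ 4 → |y + h| < 1 := by
    intro h h0 h1
    have := hsmall h h0 h1
    rw [abs_lt]
    constructor <;> linarith [hyy.1, hyy.2]
  have hrotn : ∀ h : ℝ, 0 ≤ h → a * h ≤ 4 →
      ‖JJ a F (y + h) - cexp (((a * h : ℝ) : ℂ) * I) * ((b : ℂ) * I)‖ ≤ ε2 * |b| := by
    intro h h0 h1
    have := c3 h h0 h1 (hyh h h0 h1).le
    rwa [hbn, hJ] at this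
  have hcre : ∀ x : ℝ, (cexp ((x : ℂ) * I) * ((b : ℂ) * I)).re = -(b * Real.sin x) := by
    intro x
    rw [Complex.mul_re, Complex.exp_ofReal_mul_I_re, Complex.exp_ofReal_mul_I_im]
    simp
    ring
  have hcim : ∀ x : ℝ, (cexp ((x : ℂ) * I) * ((b : ℂ) * I)).im = b * Real.cos x := by
    intro x
    rw [Complex.mul_im, Complex.exp_ofReal_mul_I_re, Complex.exp_ofReal_mul_I_im]
    simp
    ring
  obtain ⟨h, hh0, hh1, hh2, hh3⟩ := first_zero (g := fun h : ℝ => -(JJ a F (y + h)).re / b)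
    (k := fun h : ℝ => (BB a F (y + h)).im / b) (a := a) (ε := e) (ε1 := ε2) ha he0 he1
    (by rw [hε2]) (by simp [hre0]) (by
      intro h h0 h1
      have d1 := re_deriv hUD ha1 (hyh h h0 h1) hN
      have d2 : HasDerivAt (fun h : ℝ => y + h) 1 h := (hasDerivAt_id h).const_add y
      have d3 : HasDerivAt (fun h : ℝ => (JJ a F (y + h)).re) (-(a * (BB a F (y + h)).im) * 1) h :=
        HasDerivAt.comp (h₂ := fun y : ℝ => (JJ a F y).re) (h := fun h : ℝ => y + h) h d1 d2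
      refine (d3.neg.div_const b).congr_deriv ?_
      ring) (by
      intro h h0 h1
      have d1 := (Complex.abs_re_le_norm _).trans (hrotn h h0 h1)
      rw [Complex.sub_re, hcre] at d1
      have d2 : -(JJ a F (y + h)).re / b - Real.sin (a * h) =
          -((JJ a F (y + h)).re - -(b * Real.sin (a * h))) / b := by
        field_simp
        ring
      rw [d2, abs_div, abs_neg, div_le_iff₀ c1]
      exact d1) (by
      intro h h0 h1
      have d0 := hrotn h h0 h1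
      have d1 := (Complex.abs_im_le_norm _).trans d0
      rw [Complex.sub_im, hcim] at d1
      obtain ⟨c1', c2', -⟩ := H a F haa hN (y + h) (hyh h h0 h1).le
      have d3 := (Complex.abs_im_le_norm _).trans c2'
      rw [Complex.sub_im] at d3
      have d4 : ‖JJ a F (y + h)‖ ≤ 2 * |b| := by
        have d5 := norm_le_norm_add_norm_sub (cexp (((a * h : ℝ) : ℂ) * I) * ((b : ℂ) * I)) (JJ a F (y + h))
        have d6 : ‖cexp (((a * h : ℝ) : ℂ) * I) * ((b : ℂ) * I)‖ = |b| := by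
          rw [norm_mul, Complex.norm_exp_ofReal_mul_I, one_mul, norm_mul, Complex.norm_I, mul_one,
            Complex.norm_real, Real.norm_eq_abs]
        rw [d6, norm_sub_rev] at d5
        have d7 : ε2 * |b| ≤ 1 * |b| := mul_le_mul_of_nonneg_right hε21 c1.le
        linarith
      have d5 : ε2 * ‖JJ a F (y + h)‖ ≤ ε2 * (2 * |b|) := mul_le_mul_of_nonneg_left d4 hε20.le
      have d6 : (BB a F (y + h)).im / b - Real.cos (a * h) =
          (((BB a F (y + h)).im - (JJ a F (y + h)).im) + ((JJ a F (y + h)).im - b * Real.cos (a * h))) / b := by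
        field_simp
        ring
      rw [d6, abs_div, div_le_iff₀ c1]
      refine (abs_add_le _ _).trans ?_
      linarith)
  have hah : a * h ≤ 4 := by
    have := (abs_le.1 hh1).2
    have hpi2 := Real.pi_lt_d2
    norm_num at hpi2
    linarith
  refine ⟨h, hh0, hsmall h hh0.le hah, hh1.trans heε, ?_, ?_⟩
  · rw [uu_axis hUD ha1 (hyh h hh0.le hah).le hN]
    have : (JJ a F (y + h)).re = 0 := by
      have h5 : -(JJ a F (y + h)).re / b = 0 := hh2
      rcases div_eq_zero_iff.1 h5 with h6 | h6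
      · linarith
      · exact absurd h6 hb0
    rw [this]
    simp
  · intro h' h0' hlt hcon
    have hah' : a * h' ≤ 4 := (mul_le_mul_of_nonneg_left hlt.le ha.le).trans hah
    rw [uu_axis hUD ha1 (hyh h' h0'.le hah').le hN] at hcon
    have h7 : 2 * (JJ a F (y + h')).re = 0 := by exact_mod_cast hcon
    apply hh3 h' h0' hlt
    rw [show (JJ a F (y + h')).re = 0 by linarith]
    simp

end Pool.Agent.R838.CR
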