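import Pool.Agent.R838.CR.CntP
import Pool.Agent.R838.TW.Cnt

set_option autoImplicit false

/-!
# Spacing of the zeros of the heat flow: completed L-functions and their products
-/

namespace Pool.Agent.R838.CR

open Complex Filter Topology Set
open scoped ComplexConjugate
open Pool.Agent.W169.HF (heat)
open Pool.Agent.Y671.GL
open Pool.Agent.R838.TW (PL PL.app PL.huge)

variable {Λ : ℂ → ℂ} {u : ℂ} {a : ℝ}

/-- **Spacing of the zeros of the heat flow.** -/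
theorem spacing {κ : ℝ} (hκ : 1 / 2 ≤ κ) (h : PL κ (fun z => u * Λ ((a : ℂ) + z))) (hu : u ≠ 0) {ε A : ℝ}
    (hε : 0 < ε) : ∃ c C : ℝ, 0 < c ∧ 0 < C ∧
      ∀ t T : ℝ, 0 < t → t ≤ 1 / 8 → 2 ≤ T → t * Real.log T ≤ A →
      (nu (heat t Λ) (IRX Λ κ ε a t T) : ℝ) ≤
        C * Real.exp (-(c * t * Real.log T ^ 2)) * nu (heat t Λ) (ZH Λ t T) ∧
      (nu (heat t Λ) (IRX Λ κ ε a t T) : ℝ) ≤ C * Real.exp (-(c * t * Real.log T ^ 2)) * T * Real.log T := by
  obtain ⟨H, Z, hG⟩ := h.gy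
  exact countP_shift hκ hu hG h.app h.strip h.huge hε

end Pool.Agent.R838.CR
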