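import Pool.Agent.R838.CR.Loc4
import Pool.Agent.R838.CR.Inst

set_option autoImplicit false

/-!
# Regular zeros of the heat flow
-/

namespace Pool.Agent.R838.CR

open Complex Filter Topology MeasureTheory Set
open Pool.Agent.Y671.LD (badH FarOK LocH TopOK)
open Pool.Agent.H24R2.JP (Om)
open Pool.Agent.H24R2.DZ (ra NN)
open Pool.Agent.W186.SD (UU NG Grow Std)

/-- `s` is a simple zero on the line, and the next zero is again a simple zero on the line, at the distance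
`(π + O(ε)) / Om (Im s)`. -/
def regH (FT : ℝ → ℂ → ℂ) (ε τ : ℝ) (s : ℂ) : Prop :=
  s.re = 0 ∧ deriv (FT τ) s ≠ 0 ∧ ∃ g : ℝ, 0 < g ∧ |g * Om s.im - Real.pi| ≤ ε ∧
    FT τ (s + g * I) = 0 ∧ deriv (FT τ) (s + g * I) ≠ 0 ∧
    ∀ z : ℂ, FT τ z = 0 → s.im ≤ z.im → z.im ≤ s.im + g → z = s ∨ z = s + g * I

/-- A zero which is not regular. -/
def irrH (FT : ℝ → ℂ → ℂ) (ε τ : ℝ) (s : ℂ) : Prop := FT τ s = 0 ∧ ¬ regH FT ε τ s

lemma reg_local {F : ℂ → ℂ} {FT : ℝ → ℂ → ℂ} (hREL : RELI F FT)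
    {ε a τ r t' : ℝ} {s : ℂ} (hτ : 0 < τ) (hr : 0 < r) (ha : 1 ≤ a) (hε : ε ≤ 1 / 2)
    (hg : r ^ 2 / (4 * τ) = a / 2)
    (hGAP : ∀ y : ℝ, |y| ≤ 1 / 2 → UU (a / 2) (fun z => F (I * t' + r * z)) (y * I) = 0 →
      ∃ h : ℝ, 0 < h ∧ h ≤ 1 / 4 ∧ |a * h - Real.pi| ≤ ε ∧
        UU (a / 2) (fun z => F (I * t' + r * z)) ((y + h : ℝ) * I) = 0 ∧
        ∀ h' : ℝ, 0 < h' → h' < h → UU (a / 2) (fun z => F (I * t' + r * z)) ((y + h' : ℝ) * I) ≠ 0)
    (hs : FT τ s = 0) (hst : |s.im - t'| ≤ r / 2)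
    (hnb : ∀ z : ℂ, FT τ z = 0 → s.im ≤ z.im → z.im ≤ s.im + 4 * r / a → z.re = 0 ∧ deriv (FT τ) z ≠ 0) :
    s.re = 0 ∧ deriv (FT τ) s ≠ 0 ∧ ∃ g : ℝ, 0 < g ∧ g ≤ 4 * r / a ∧ |a * (g / r) - Real.pi| ≤ ε ∧
    FT τ (s + g * I) = 0 ∧ deriv (FT τ) (s + g * I) ≠ 0 ∧
    ∀ z : ℂ, FT τ z = 0 → s.im ≤ z.im → z.im ≤ s.im + g → z = s ∨ z = s + g * I := by
  have ha0 : 0 < a := by linarith
  have hra : 0 < 4 * r / a := by positivity
  have hs0 := hnb s hs le_rfl (by linarith)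
  have hk : ((r / (2 * Real.sqrt (Real.pi * τ)) : ℝ) : ℂ) ≠ 0 := by
    have : 0 < Real.sqrt (Real.pi * τ) := Real.sqrt_pos.mpr (by positivity)
    exact_mod_cast (by positivity : r / (2 * Real.sqrt (Real.pi * τ)) ≠ 0)
  have hrc : (r : ℂ) ≠ 0 := by exact_mod_cast hr.ne'
  -- zeros on the axis in local coordinates
  have hloc : ∀ u : ℝ, FT τ ((u : ℂ) * I) = 0 ↔
      UU (a / 2) (fun z => F (I * t' + r * z)) (((u - t') / r : ℝ) * I) = 0 := by
    intro u
    have h1 := hREL τ r t' ((((u - t') / r : ℝ) : ℂ) * I) hτ hr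
    have e1 : I * (t' : ℂ) + (r : ℂ) * ((((u - t') / r : ℝ) : ℂ) * I) = (u : ℂ) * I := by
      push_cast
      field_simp
      ring
    rw [e1, hg] at h1
    rw [h1]
    constructor
    · intro h2
      exact (mul_eq_zero.1 h2).resolve_left hk
    · intro h2
      rw [h2, mul_zero]
  have hax : ∀ z : ℂ, z.re = 0 → z = (z.im : ℂ) * I := by
    intro z hz
    apply Complex.ext
    · simp [hz]
    · simp
  have hsI := hax s hs0.1
  obtain ⟨y, hy⟩ : ∃ y : ℝ, y = (s.im - t') / r := ⟨_, rfl⟩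
  have hys : UU (a / 2) (fun z => F (I * t' + r * z)) (y * I) = 0 := by
    rw [hy, ← hloc, ← hsI]
    exact hs
  have hy1 : |y| ≤ 1 / 2 := by
    rw [hy, abs_div, abs_of_pos hr, div_le_iff₀ hr]
    linarith
  obtain ⟨h, h0, -, h1, h2, h3⟩ := hGAP y hy1 hys
  obtain ⟨g, hgd⟩ : ∃ g : ℝ, g = r * h := ⟨_, rfl⟩
  have hg0 : 0 < g := by rw [hgd]; positivity
  have hgr : g / r = h := by rw [hgd]; field_simp
  have hah : a * h ≤ 4 := by
    have := (abs_le.1 h1).2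
    have hpi2 := Real.pi_lt_d2
    norm_num at hpi2
    linarith
  have hg4 : g ≤ 4 * r / a := by
    rw [le_div_iff₀ ha0, hgd]
    have := mul_le_mul_of_nonneg_left hah hr.le
    linarith
  have hsg : s + g * I = ((s.im + g : ℝ) : ℂ) * I := by
    conv_lhs => rw [hsI]
    push_cast
    ring
  have hyg : (s.im + g - t') / r = y + h := by
    rw [hy, hgd]
    field_simp
    ring
  have hzg : FT τ (s + g * I) = 0 := by
    rw [hsg, hloc, hyg]
    exact h2
  have hsgim : (s + g * I).im = s.im + g := by simp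
  refine ⟨hs0.1, hs0.2, g, hg0, hg4, by rw [hgr]; exact h1, hzg, ?_, ?_⟩
  · exact (hnb _ hzg (by rw [hsgim]; linarith) (by rw [hsgim]; linarith)).2
  · intro z hz hz1 hz2
    have hzr := (hnb z hz hz1 (by linarith)).1
    have hzI := hax z hzr
    rcases hz1.eq_or_lt with h4 | h4
    · left
      rw [hzI, hsI, h4]
    · rcases hz2.eq_or_lt with h5 | h5
      · right
        rw [hsg, ← h5]
        exact hzI
      · exfalso
        have h6 : UU (a / 2) (fun z => F (I * t' + r * z)) (((z.im - t') / r : ℝ) * I) = 0 := by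
          rw [← hloc, ← hzI]
          exact hz
        obtain ⟨h', hh'⟩ : ∃ h' : ℝ, h' = (z.im - s.im) / r := ⟨_, rfl⟩
        have e1 : (z.im - t') / r = y + h' := by
          rw [hy, hh']
          field_simp
          ring
        rw [e1] at h6
        refine h3 h' ?_ ?_ h6
        · rw [hh']
          exact div_pos (by linarith) hr
        · rw [hh', div_lt_iff₀ hr]
          rw [hgd] at h5
          linarith

end Pool.Agent.R838.CR
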