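import Pool.Agent.W186.SD.FinHt
import Pool.Agent.R838.CR.Finp

set_option autoImplicit false

/-!
# The hypotheses of the theorem on regular zeros for the Riemann xi function
-/

namespace Pool.Agent.R838.CR

open Complex Filter Topology MeasureTheory Set
open Pool.Agent.H24R2.JP (XX HH Om)
open Pool.Agent.H986R2.DBN (XT JT Ht)
open Pool.Agent.H24R2.DZ (ra NN)

theorem good_xi : GOODI XX := by
  intro η hη
  obtain ⟨y1, x1, hy1, hx1, hG⟩ := Pool.Agent.W186.SD.HH.sc2 η hη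
  obtain ⟨θ, cc, CC, a3, T3, hθ, hθ', hcc, hCC, ha3, hT3, hV⟩ := Pool.Agent.W186.SD.sc1 y1 x1 hy1 hx1
  obtain ⟨a4, T4, hNN⟩ := hG θ hθ hθ'
  refine ⟨cc, CC, max a3 a4, max T3 T4, hcc, hCC, ha3.trans (le_max_left _ _), hT3.trans (le_max_left _ _), ?_⟩
  intro T a hT ha haT
  refine le_trans (measure_mono ?_) (hV T a ((le_max_left _ _).trans hT) ((le_max_left _ _).trans ha) haT)
  rintro t0 ⟨h1, h2, h3⟩
  exact ⟨h1, h2, fun h4 => h3 (hNN T a t0 ((le_max_right _ _).trans hT) ((le_max_right _ _).trans ha) haT h1 h2 h4)⟩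

theorem ins_xi : INS XX XT where
  rel := Pool.Agent.W337.SD.rel
  ung := Pool.Agent.W186.SD.HH.ung
  bigm := Pool.Agent.W186.SD.HH.bigm
  unit := Pool.Agent.W186.SD.HH.unit'
  grow := Pool.Agent.W186.SD.HH.grow
  pt := Pool.Agent.W186.SD.HH.pt'
  cnx := Pool.Agent.W186.SD.HH.cnx
  good := good_xi
  top := W327.SD.top
  lowc := Pool.Agent.W186.SD.HH.lowc

end Pool.Agent.R838.CR
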